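import Pool.Agent.H516R2.QAR.Props

/-! Task ASA: asymptotics. -/

set_option autoImplicit false

namespace Pool.Agent.H516R2.QAR

theorem ASA_poly (p : Polynomial ℕ) (n : ℕ) :
    p.eval n ≤ p.eval 1 * (n + 1) ^ p.natDegree := by
  rw [Polynomial.eval_eq_sum_range, Polynomial.eval_eq_sum_range, Finset.sum_mul]
  apply Finset.sum_le_sum
  intro i hi
  rw [Finset.mem_range] at hi
  rw [one_pow, mul_one]
  apply Nat.mul_le_mul_left
  exact (Nat.pow_le_pow_left (Nat.le_succ n) i).trans (Nat.pow_le_pow_right (Nat.succ_pos n) (by omega))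

theorem ASA : St_ASA := by
  intro p c
  obtain ⟨a, ha⟩ : ∃ a, a = p.eval 1 + p.natDegree := ⟨_, rfl⟩
  refine ⟨4000 * (14 + 2 * a + c) ^ 2, fun n => ?_⟩
  obtain ⟨l, hl⟩ : ∃ l, l = Nat.log 2 n + 1 := ⟨_, rfl⟩
  have l1 : 1 ≤ l := by omega
  have hn : n + 1 ≤ 2 ^ l := by
    rw [hl]; exact Nat.lt_pow_succ_log_self (by norm_num) n
  have h1 : p.eval n ≤ 2 ^ (a * l) := by
    calc p.eval n ≤ p.eval 1 * (n + 1) ^ p.natDegree := ASA_poly p n
      _ ≤ 2 ^ (p.eval 1) * (2 ^ l) ^ p.natDegree :=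
          Nat.mul_le_mul Nat.lt_two_pow_self.le (Nat.pow_le_pow_left hn _)
      _ ≤ 2 ^ (p.eval 1 * l) * (2 ^ l) ^ p.natDegree := by
          apply Nat.mul_le_mul_right
          apply Nat.pow_le_pow_right (by norm_num)
          exact Nat.le_mul_of_pos_right _ l1
      _ = 2 ^ (a * l) := by rw [← pow_mul, ← pow_add, ha]; congr 1; ring
  have h2 : Nat.log 2 (p.eval n) ≤ a * l := by
    have := Nat.log_mono_right (b := 2) h1
    rwa [Nat.log_pow (by norm_num)] at this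
  rw [← hl, Mb]
  apply Nat.pow_le_pow_right (by norm_num)
  have h3 : 10 + 2 * (Nat.log 2 (p.eval n) + 1) + (c + 2) * l ≤ (14 + 2 * a + c) * l := by
    nlinarith
  calc 4000 * (10 + 2 * (Nat.log 2 (p.eval n) + 1) + (c + 2) * l) ^ 2
      ≤ 4000 * ((14 + 2 * a + c) * l) ^ 2 := Nat.mul_le_mul_left _ (Nat.pow_le_pow_left h3 2)
    _ = 4000 * (14 + 2 * a + c) ^ 2 * l ^ 2 := by ring

end Pool.Agent.H516R2.QAR
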