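import Pool.Agent.H516R2.QAR.Props

/-!
# Asymptotics of part (b)
-/

set_option autoImplicit false

namespace Pool.Agent.H516R2.QAR

theorem asb_eval_le (p : Polynomial ℕ) (x : ℕ) (hx : 1 ≤ x) :
    p.eval x ≤ p.eval 1 * x ^ p.natDegree := by
  rw [Polynomial.eval_eq_sum_range, Polynomial.eval_eq_sum_range, Finset.sum_mul]
  refine Finset.sum_le_sum fun i hi => ?_
  rw [one_pow, mul_one]
  refine Nat.mul_le_mul_left _ (Nat.pow_le_pow_right hx ?_)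
  have := Finset.mem_range.1 hi
  omega

theorem asb_arg_le (k n : ℕ) : 2 * n + 1 + 2 ^ (k * n) ≤ 2 ^ ((k + 2) * (n + 1)) := by
  have h1 : n + 1 ≤ 2 ^ n := Nat.lt_two_pow_self
  have h2 : 2 ^ ((k + 2) * (n + 1)) = 2 ^ (k * n) * 2 ^ k * 2 ^ (2 * n + 2) := by
    rw [← pow_add, ← pow_add]; congr 1; ring
  have h3 : 1 ≤ 2 ^ (k * n) := Nat.one_le_two_pow
  have h4 : 1 ≤ 2 ^ k := Nat.one_le_two_pow
  have h5 : 2 ^ (2 * n + 2) = 4 * (2 ^ n * 2 ^ n) := by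
    rw [← pow_add]; rw [show 2 * n + 2 = (n + n) + 2 by ring, pow_add _ (n + n) 2]; ring
  have h6 : 1 ≤ 2 ^ n := Nat.one_le_two_pow
  rw [h2, h5]
  have h7 : 2 ^ n ≤ 2 ^ n * 2 ^ n := Nat.le_mul_of_pos_left _ (by positivity)
  have h8 : 2 ^ (k * n) ≤ 2 ^ (k * n) * 2 ^ k := Nat.le_mul_of_pos_right _ (by positivity)
  have h9 : 2 ^ (k * n) * 2 ^ k * (4 * (2 ^ n * 2 ^ n)) ≥ 2 ^ (k * n) * 2 ^ k * (4 * 2 ^ n) :=
    Nat.mul_le_mul_left _ (by omega)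
  have h10 : 2 ^ (k * n) * (4 * 2 ^ n) ≤ 2 ^ (k * n) * 2 ^ k * (4 * 2 ^ n) :=
    Nat.mul_le_mul_right _ h8
  have h11 : 2 ^ (k * n) * (4 * 2 ^ n) ≥ 2 ^ (k * n) + 3 * 2 ^ n := by
    nlinarith
  omega

/-- The asymptotics of part (b). -/
theorem ASB : St_ASB := by
  intro p k
  set a : ℕ := p.eval 1 + (k + 2) * p.natDegree with ha
  refine ⟨4000 * (14 + 2 * a) ^ 2 + k, fun n => ⟨?_, ?_⟩⟩
  · unfold Mb
    refine Nat.pow_le_pow_right (by norm_num) ?_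
    have hx : 1 ≤ 2 * n + 1 + 2 ^ (k * n) := by
      have : 0 ≤ 2 ^ (k * n) := Nat.zero_le _
      generalize 2 ^ (k * n) = e at *
      omega
    have h1 : p.eval (2 * n + 1 + 2 ^ (k * n)) ≤ 2 ^ (a * (n + 1)) := by
      refine (asb_eval_le p _ hx).trans ?_
      have h2 : p.eval 1 ≤ 2 ^ (p.eval 1 * (n + 1)) := by
        refine (Nat.lt_two_pow_self (n := p.eval 1)).le.trans ?_
        exact Nat.pow_le_pow_right (by norm_num) (Nat.le_mul_of_pos_right _ (by omega))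
      have h3 : (2 * n + 1 + 2 ^ (k * n)) ^ p.natDegree ≤ 2 ^ ((k + 2) * (n + 1) * p.natDegree) := by
        rw [pow_mul 2 ((k + 2) * (n + 1))]
        exact Nat.pow_le_pow_left (asb_arg_le k n) _
      refine (Nat.mul_le_mul h2 h3).trans ?_
      rw [← pow_add]
      refine Nat.pow_le_pow_right (by norm_num) (le_of_eq ?_)
      rw [ha]; ring
    have h2 : Nat.log 2 (p.eval (2 * n + 1 + 2 ^ (k * n))) ≤ a * (n + 1) := by
      refine (Nat.log_mono_right h1).trans ?_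
      rw [Nat.log_pow (by norm_num)]
    have h3 : 10 + 2 * (Nat.log 2 (p.eval (2 * n + 1 + 2 ^ (k * n))) + 1) + 2 * n
        ≤ (14 + 2 * a) * (n + 1) := by nlinarith
    calc 4000 * (10 + 2 * (Nat.log 2 (p.eval (2 * n + 1 + 2 ^ (k * n))) + 1) + 2 * n) ^ 2
        ≤ 4000 * ((14 + 2 * a) * (n + 1)) ^ 2 :=
          Nat.mul_le_mul_left _ (Nat.pow_le_pow_left h3 2)
      _ = 4000 * (14 + 2 * a) ^ 2 * (n + 1) ^ 2 := by ring
      _ ≤ (4000 * (14 + 2 * a) ^ 2 + k) * (n + 1) ^ 2 :=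
          Nat.mul_le_mul_right _ (Nat.le_add_right _ _)
  · refine Nat.pow_le_pow_right (by norm_num) ?_
    calc k * n ≤ k * (n + 1) ^ 2 := Nat.mul_le_mul_left _ (by nlinarith)
      _ ≤ (4000 * (14 + 2 * a) ^ 2 + k) * (n + 1) ^ 2 :=
          Nat.mul_le_mul_right _ (Nat.le_add_left _ _)

end Pool.Agent.H516R2.QAR
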