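import Mathlib

/-!
# BC: the first Borel-Cantelli lemma for the number of bad words (helper329)
-/

set_option autoImplicit false

namespace Pool.Agent.H516R2.QAR

open Filter MeasureTheory
open scoped ENNReal

theorem bc_card (n : ℕ) : (List.finite_length_eq Bool n).toFinset.card = 2 ^ n := by
  have h1 : (List.finite_length_eq Bool n).toFinset.card = Nat.card {l : List Bool | l.length = n} := by
    rw [← Set.ncard_eq_toFinset_card _ (List.finite_length_eq Bool n)]; exact (Nat.card_coe_set_eq _).symm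
  rw [h1]
  have h2 : Nat.card {l : List Bool | l.length = n} = Nat.card (List.Vector Bool n) := rfl
  rw [h2, Nat.card_eq_fintype_card, card_vector, Fintype.card_bool]

theorem bc_core {Ω : Type*} [MeasurableSpace Ω] (μ : Measure Ω) [IsProbabilityMeasure μ]
    (bad : List Bool → Set Ω) (w b : ℕ → ℝ) (hm : ∀ v, MeasurableSet (bad v))
    (hw : ∀ n, 0 ≤ w n) (hb : ∀ n, 0 ≤ b n) (h : ∀ v, μ.real (bad v) ≤ b v.length)
    (hs : Summable (fun n => 2 ^ n * w n * b n)) :
    ∀ᵐ A ∂μ, ∀ᶠ n in atTop,
      ({v : List Bool | v.length = n ∧ A ∈ bad v}.ncard : ℝ) * w n ≤ 1 := by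
  classical
  obtain ⟨S, hS⟩ : ∃ S : ℕ → Finset (List Bool), ∀ n, S n = (List.finite_length_eq Bool n).toFinset :=
    ⟨_, fun _ => rfl⟩
  have hmem : ∀ n v, v ∈ S n ↔ v.length = n := fun n v => by rw [hS]; simp
  have hcard : ∀ n, (S n).card = 2 ^ n := fun n => by rw [hS]; exact bc_card n
  obtain ⟨f, hf⟩ : ∃ f : ℕ → Ω → ℝ≥0∞, ∀ n A, f n A =
      ∑ v ∈ S n, (bad v).indicator (fun _ => ENNReal.ofReal (w n)) A := ⟨_, fun _ _ => rfl⟩
  have hfm : ∀ n, Measurable (f n) := by
    intro n
    have : f n = fun A => ∑ v ∈ S n, (bad v).indicator (fun _ => ENNReal.ofReal (w n)) A := by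
      funext A; exact hf n A
    rw [this]
    exact Finset.measurable_sum _ fun v _ => measurable_const.indicator (hm v)
  have hfN : ∀ n A, f n A =
      ENNReal.ofReal (({v : List Bool | v.length = n ∧ A ∈ bad v}.ncard : ℝ) * w n) := by
    intro n A
    have h1 : {v : List Bool | v.length = n ∧ A ∈ bad v} = ((S n).filter (fun v => A ∈ bad v) : Set (List Bool)) := by
      ext v
      simp [hmem]
    rw [hf, h1, Set.ncard_coe_finset, ENNReal.ofReal_mul (by positivity), ENNReal.ofReal_natCast]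
    simp only [Set.indicator_apply]
    rw [← Finset.sum_filter, Finset.sum_const, nsmul_eq_mul]
  have hint : ∀ n, ∫⁻ A, f n A ∂μ ≤ ENNReal.ofReal (2 ^ n * w n * b n) := by
    intro n
    have h1 : ∫⁻ A, f n A ∂μ = ∑ v ∈ S n, ENNReal.ofReal (w n) * μ (bad v) := by
      simp only [hf]
      rw [lintegral_finsetSum _ fun v _ => measurable_const.indicator (hm v)]
      refine Finset.sum_congr rfl fun v _ => ?_
      rw [lintegral_indicator (hm v), setLIntegral_const]
    rw [h1]
    have h2 : ∀ v ∈ S n, ENNReal.ofReal (w n) * μ (bad v) ≤ ENNReal.ofReal (w n * b n) := by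
      intro v hv
      rw [ENNReal.ofReal_mul (hw n)]
      refine mul_le_mul_right ?_ _
      have h3 := h v
      rw [(hmem n v).1 hv] at h3
      rw [← ENNReal.ofReal_toReal (measure_ne_top μ (bad v))]
      exact ENNReal.ofReal_le_ofReal h3
    refine (Finset.sum_le_sum h2).trans ?_
    rw [Finset.sum_const, hcard, nsmul_eq_mul, ← ENNReal.ofReal_natCast, ← ENNReal.ofReal_mul (by positivity)]
    apply ENNReal.ofReal_le_ofReal
    push_cast
    rw [mul_assoc]
  have hBC : ∑' n, μ {A | 1 ≤ f n A} ≠ ∞ := by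
    have h1 : ∀ n, μ {A | 1 ≤ f n A} ≤ ENNReal.ofReal (2 ^ n * w n * b n) := by
      intro n
      have := mul_meas_ge_le_lintegral (μ := μ) (hfm n) 1
      rw [one_mul] at this
      exact this.trans (hint n)
    refine ne_top_of_le_ne_top ?_ (ENNReal.tsum_le_tsum h1)
    rw [← ENNReal.ofReal_tsum_of_nonneg (fun n => mul_nonneg (mul_nonneg (by positivity) (hw n)) (hb n)) hs]
    exact ENNReal.ofReal_ne_top
  filter_upwards [ae_eventually_notMem hBC] with A hA
  filter_upwards [hA] with n hn
  by_contra hlt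
  push Not at hlt
  apply hn
  show 1 ≤ f n A
  rw [hfN, ← ENNReal.ofReal_one]
  exact ENNReal.ofReal_le_ofReal hlt.le

end Pool.Agent.H516R2.QAR
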