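import Pool.Agent.H516R2.QAR.Props
import Pool.Agent.H516R2.QAR.BCcore

set_option autoImplicit false

namespace Pool.Agent.H516R2.QAR

open Filter MeasureTheory
open Pool.Agent.H628R3.RO (randomOracle)

theorem BC : St_BC := by
  intro bad w b hm hw hb h hs
  haveI : IsProbabilityMeasure randomOracle := by
    unfold Pool.Agent.H628R3.RO.randomOracle
    infer_instance
  exact bc_core randomOracle bad w b hm hw hb h hs

end Pool.Agent.H516R2.QAR
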