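import Pool.Agent.H516R2.QAR.Props

/-!
# BR: circuits are query processes (helper497)
-/

set_option autoImplicit false

namespace Pool.Agent.H516R2.QAR

open Pool.Agent.NPC Pool.Agent.H620R2.Gauge Filter MeasureTheory
open Pool.Agent.H722R2.AA Pool.Agent.H746R2.AA Pool.Agent.H703R2.AA Pool.Agent.H703R2.AA.Pr
  Pool.Agent.H703R2.AC

lemma BR_append (O : Oracle) {m : ℕ} (l l' : List Gate) (ψ : (Fin m → Bool) → ℝ) :
    circAct O (l ++ l') ψ = circAct O l' (circAct O l ψ) := by
  induction l generalizing ψ with
  | nil => rfl
  | cons g l ih => exact ih _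

lemma BR_take (O : Oracle) {m : ℕ} (l : List Gate) (t : ℕ) (ht : t < l.length)
    (ψ : (Fin m → Bool) → ℝ) :
    circAct O (l.take (t + 1)) ψ = gateAct O l[t] (circAct O (l.take t) ψ) := by
  rw [← List.take_concat_get' l t ht, BR_append]
  rfl

lemma BR_nsq_init (m : ℕ) : nsq (initSt m) = 1 := by
  unfold nsq initSt
  rw [Finset.sum_eq_single (fun _ => false)]
  · simp
  · intro s _ hs
    rw [if_neg hs]
    norm_num
  · intro h
    exact absurd (Finset.mem_univ _) h

/-- the measurement matrices -/
noncomputable def BR_M {m : ℕ} (w : Bool) (s j : Fin m → Bool) : ℝ :=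
  if s = j ∧ rd s 0 = w then 1 else 0

lemma BR_M_sum {m : ℕ} (i j : Fin m → Bool) :
    ∑ w, ∑ s, BR_M w s i * BR_M w s j = if i = j then 1 else 0 := by
  have h1 : ∀ w, ∑ s, BR_M w s i * BR_M w s j = BR_M w i i * BR_M w i j := by
    intro w
    refine Finset.sum_eq_single i (fun s _ hs => ?_) (fun h => absurd (Finset.mem_univ _) h)
    unfold BR_M
    rw [if_neg (fun h => hs h.1), zero_mul]
  simp only [h1]
  unfold BR_M
  by_cases hij : i = j
  · subst hij
    rw [if_pos rfl, Fintype.sum_bool]
    cases h : rd i 0 <;> simp
  · rw [if_neg hij]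
    refine Finset.sum_eq_zero fun w _ => ?_
    rw [if_neg (fun h : i = j ∧ rd i 0 = w => hij h.1), mul_zero]

/-- the process of a circuit -/
noncomputable def BR_P {κ : Type} [Fintype κ] [DecidableEq κ] {m : ℕ} (L : List Gate)
    (a : Gate → Option κ → (Fin m → Bool) → (Fin m → Bool) → ℝ)
    (h1 : ∀ g k l, k ≠ l → ∀ i j, ∑ s, a g k s i * a g l s j = 0)
    (h2 : ∀ g i j, ∑ k, ∑ s, a g k s i * a g k s j = if i = j then 1 else 0) :
    Pr κ (Fin m → Bool) Bool where
  a := fun h w k => if hl : h.length < L.length then (if w = true then a (L[h.length]) k else fun _ _ => 0)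
    else (if k = none then BR_M w else fun _ _ => 0)
  v := initSt m
  hv := BR_nsq_init m
  orth := by
    intro h k l hkl i j
    by_cases hl : h.length < L.length
    · simp only [dif_pos hl, Fintype.sum_bool, if_true]
      rw [h1 _ k l hkl i j]
      simp
    · simp only [dif_neg hl]
      by_cases hk : k = none
      · have hl' : l ≠ none := fun h => hkl (hk.trans h.symm)
        simp only [if_neg hl', mul_zero, Finset.sum_const_zero]
      · simp only [if_neg hk, zero_mul, Finset.sum_const_zero]
  tot := by
    intro h i j
    by_cases hl : h.length < L.length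
    · simp only [dif_pos hl, Fintype.sum_bool, if_true]
      rw [← h2 (L[h.length]) i j]
      refine Finset.sum_congr rfl fun k _ => ?_
      simp
    · simp only [dif_neg hl]
      rw [Fintype.sum_option]
      simp only [if_true, reduceCtorEq, if_false, mul_zero, Finset.sum_const_zero, add_zero]
      exact BR_M_sum i j

theorem BR (hK1 : St_KR1) (hK2 : St_KR2) (hK3 : St_KR3) : St_BR := by
  intro κ _ _ val c
  have hex : ∀ g : Gate, ∃ a : Option κ → (Fin c.1.length → Bool) → (Fin c.1.length → Bool) → ℝ,
      IsKr a (fun x ψ => gateAct (orc val x) g ψ) := by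
    intro g
    match g with
    | Sum.inl i =>
      obtain ⟨a, ha⟩ := hK1 κ c.1.length i
      exact ⟨a, ha⟩
    | Sum.inr (false, q, k) =>
      obtain ⟨a, ha⟩ := hK2 κ c.1.length k q
      exact ⟨a, ha⟩
    | Sum.inr (true, q, k) => exact hK3 κ val c.1.length k q
  choose a ha using hex
  obtain ⟨P, hP⟩ : ∃ P, P = BR_P c.2 a (fun g => (ha g).1) (fun g => (ha g).2.1) := ⟨_, rfl⟩
  refine ⟨P, fun x => ?_⟩
  -- the states
  have hstep : ∀ (h : List Bool) (hl : h.length < c.2.length) (w : Bool) (u : (Fin c.1.length → Bool) → ℝ),
      mv (P.Q h w x) u = if w = true then gateAct (orc val x) (c.2[h.length]) u else 0 := by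
    intro h hl w u
    by_cases hw : w = true
    · have hg := (ha (c.2[h.length])).2.2 x u
      simp only at hg
      rw [if_pos hw, hg]
      funext s
      unfold Pool.Agent.H703R2.AA.mv Pr.Q
      refine Finset.sum_congr rfl fun j _ => ?_
      congr 1
      refine Finset.sum_congr rfl fun k _ => ?_
      rw [hP]
      show _ * (if hl : h.length < c.2.length then (if w = true then a (c.2[h.length]) k else fun _ _ => 0)
        else (if k = none then BR_M w else fun _ _ => 0)) s j = _
      rw [dif_pos hl, if_pos hw]
    · rw [if_neg hw]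
      funext s
      unfold Pool.Agent.H703R2.AA.mv Pr.Q
      refine Finset.sum_eq_zero fun j _ => ?_
      have : ∑ k, sgo x k * P.a h w k s j = 0 := by
        refine Finset.sum_eq_zero fun k _ => ?_
        rw [hP]
        show _ * (if hl : h.length < c.2.length then (if w = true then a (c.2[h.length]) k else fun _ _ => 0)
          else (if k = none then BR_M w else fun _ _ => 0)) s j = _
        rw [dif_pos hl, if_neg hw, mul_zero]
      rw [this, zero_mul]
  have hmeas : ∀ (h : List Bool), ¬ h.length < c.2.length → ∀ (w : Bool) (u : (Fin c.1.length → Bool) → ℝ),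
      mv (P.Q h w x) u = fun s => if rd s 0 = w then u s else 0 := by
    intro h hl w u
    funext s
    unfold Pool.Agent.H703R2.AA.mv Pr.Q
    have : ∀ j, ∑ k, sgo x k * P.a h w k s j = BR_M w s j := by
      intro j
      rw [Fintype.sum_option, hP]
      have e1 : ∀ k, (BR_P c.2 a (fun g => (ha g).1) (fun g => (ha g).2.1)).a h w k s j =
          (if k = none then BR_M w else fun _ _ => 0) s j := by
        intro k
        show (if hl : h.length < c.2.length then (if w = true then a (c.2[h.length]) k else fun _ _ => 0)
          else (if k = none then BR_M w else fun _ _ => 0)) s j = _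
        rw [dif_neg hl]
      simp only [e1, if_true, reduceCtorEq, if_false, mul_zero, Finset.sum_const_zero, add_zero, sgo, one_mul]
    simp only [this]
    rw [Finset.sum_eq_single s]
    · unfold BR_M
      by_cases hw : rd s 0 = w
      · rw [if_pos ⟨rfl, hw⟩, if_pos hw, one_mul]
      · rw [if_neg (fun h => hw h.2), if_neg hw, zero_mul]
    · intro j _ hj
      unfold BR_M
      rw [if_neg (fun h => hj h.1.symm), zero_mul]
    · intro h
      exact absurd (Finset.mem_univ _) h
  have hA : ∀ h : List Bool, h.length ≤ c.2.length →
      P.A h x = if h = List.replicate h.length true then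
        circAct (orc val x) (c.2.take h.length) (initSt c.1.length) else 0 := by
    intro h
    induction h with
    | nil =>
      intro _
      simp only [List.length_nil, List.replicate_zero, if_true, List.take_zero]
      rw [hP]
      rfl
    | cons w h ih =>
      intro hlen
      have hl : h.length < c.2.length := by simpa using hlen
      show mv (P.Q h w x) (P.A h x) = _
      rw [hstep h hl w, ih hl.le, List.length_cons, List.replicate_succ]
      by_cases hw : w = true
      · rw [if_pos hw]
        by_cases hh : h = List.replicate h.length true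
        · rw [if_pos hh, if_pos (by rw [hw, ← hh]), BR_take _ _ _ hl]
        · rw [if_neg hh, if_neg (fun h' => hh (List.cons.inj h').2)]
          have := hstep h hl true 0
          rw [if_pos rfl, mv_zero] at this
          exact this.symm
      · rw [if_neg hw, if_neg (fun h' => hw (List.cons.inj h').1)]
  -- the payoff
  have hout : P.out (c.2.length + 1) gAcc x =
      S c.2.length (fun h => ∑ s, if rd s 0 = true then (P.A h x s) ^ 2 else 0) := by
    show S c.2.length (fun h => ∑ w, gAcc (w :: h) * nsq (P.A (w :: h) x)) = _
    refine S_congr' _ fun h hh => ?_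
    rw [Fintype.sum_bool]
    have g1 : gAcc (true :: h) = 1 := by simp [gAcc]
    have g2 : gAcc (false :: h) = 0 := by simp [gAcc]
    rw [g1, g2, zero_mul, add_zero, one_mul]
    show nsq (mv (P.Q h true x) (P.A h x)) = _
    rw [hmeas h (by omega) true]
    unfold nsq
    refine Finset.sum_congr rfl fun s _ => ?_
    by_cases hs : rd s 0 = true
    · simp only [if_pos hs]
    · simp only [if_neg hs]
      norm_num
  rw [hout, S_eq_ofFn, Finset.sum_eq_single (fun _ => true)]
  · rw [List.ofFn_const]
    have h1 := hA (List.replicate c.2.length true) (by rw [List.length_replicate])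
    rw [List.length_replicate, if_pos rfl, List.take_length] at h1
    rw [h1]
    rfl
  · intro b _ hb
    have h1 := hA (List.ofFn b) (by rw [List.length_ofFn])
    rw [List.length_ofFn, if_neg] at h1
    · rw [h1]
      refine Finset.sum_eq_zero fun s _ => ?_
      simp
    · intro h
      apply hb
      rw [← List.ofFn_const] at h
      exact List.ofFn_injective h
  · intro h
    exact absurd (Finset.mem_univ _) h

end Pool.Agent.H516R2.QAR
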