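import Pool.Agent.H516R2.QAR.Props

/-! Task FA (helper666): part (a) for almost every oracle. -/

set_option autoImplicit false

namespace Pool.Agent.H516R2.QAR

open Pool.Agent.NPC Pool.Agent.H620R2.Gauge Filter MeasureTheory
open Pool.Agent.H628R3.RO (randomOracle)

namespace FAaux

/-- the number of rounds -/
def mm (K n : ℕ) : ℕ := 2 ^ (K * (Nat.log 2 n + 1) ^ 2)

/-- the bad set -/
def bad (Q : Oracle) (C : List Bool → List Unit × List Gate) (K : ℕ) (v : List Bool) : Set Oracle :=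
  {A : Oracle | (2 / 3 ≤ accProb (join Q A) (C v) ∧ OUT Q A (C v) (mm K v.length) = false) ∨
    (accProb (join Q A) (C v) ≤ 1 / 3 ∧ OUT Q A (C v) (mm K v.length) = true)}

theorem summ (c : ℕ) : Summable (fun n : ℕ => (2 : ℝ) ^ n * ((n : ℝ) ^ c / 2 ^ n) *
    (1 / 2) ^ ((c + 2) * (Nat.log 2 n + 1))) := by
  have h1 : Summable (fun n : ℕ => 1 / (((n + 1 : ℕ) : ℝ)) ^ 2) :=
    (summable_nat_add_iff 1).2 (Real.summable_one_div_nat_pow.2 one_lt_two)
  refine Summable.of_nonneg_of_le (fun n => by positivity) (fun n => ?_) h1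
  have h2 : (2 : ℝ) ^ n * ((n : ℝ) ^ c / 2 ^ n) = (n : ℝ) ^ c := by
    field_simp
  rw [h2]
  have h3 : ((n + 1 : ℕ) : ℝ) ≤ 2 ^ (Nat.log 2 n + 1) := by
    exact_mod_cast Nat.lt_pow_succ_log_self (by norm_num : 1 < 2) n
  have h4 : (0 : ℝ) < ((n + 1 : ℕ) : ℝ) := by positivity
  have h5 : ((1 : ℝ) / 2) ^ ((c + 2) * (Nat.log 2 n + 1)) ≤ (1 / ((n + 1 : ℕ) : ℝ)) ^ (c + 2) := by
    rw [mul_comm, pow_mul, one_div_pow]
    apply pow_le_pow_left₀ (by positivity)
    exact one_div_le_one_div_of_le h4 h3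
  have h6 : (n : ℝ) ^ c ≤ ((n + 1 : ℕ) : ℝ) ^ c := by
    apply pow_le_pow_left₀ (by positivity)
    push_cast; linarith
  calc (n : ℝ) ^ c * (1 / 2) ^ ((c + 2) * (Nat.log 2 n + 1))
      ≤ ((n + 1 : ℕ) : ℝ) ^ c * (1 / ((n + 1 : ℕ) : ℝ)) ^ (c + 2) :=
        mul_le_mul h6 h5 (by positivity) (by positivity)
    _ = 1 / (((n + 1 : ℕ) : ℝ)) ^ 2 := by
        rw [one_div_pow, pow_add]
        field_simp

theorem key (hBC : St_BC) (hASA : St_ASA) (Q : Oracle) (hQ : St_GOOD Q)
    (C : List Bool → List Unit × List Gate) (hC : PolyTime (fun x => bits (C x))) (c : ℕ) :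
    ∃ K : ℕ, ∀ᵐ A ∂randomOracle, ∀ᶠ n in atTop,
      ({v : List Bool | v.length = n ∧ A ∈ bad Q C K v}.ncard : ℝ) * (n : ℝ) ^ c ≤ 2 ^ n := by
  obtain ⟨b, hb⟩ := circ_bound hC
  obtain ⟨K, hK⟩ := hASA (b + 1) c
  refine ⟨K, ?_⟩
  have hgood : ∀ v : List Bool, MeasurableSet (bad Q C K v) ∧
      randomOracle.real (bad Q C K v) ≤ (1 / 2) ^ ((c + 2) * (Nat.log 2 v.length + 1)) := by
    intro v
    refine hQ (C v) ((b + 1).eval v.length) ((c + 2) * (Nat.log 2 v.length + 1)) (mm K v.length) ?_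
      (hK v.length)
    rw [Polynomial.eval_add, Polynomial.eval_one]
    exact Nat.succ_le_succ (hb v).1
  have h1 := hBC (bad Q C K) (fun n => (n : ℝ) ^ c / 2 ^ n)
    (fun n => (1 / 2) ^ ((c + 2) * (Nat.log 2 n + 1))) (fun v => (hgood v).1)
    (fun n => by positivity) (fun n => by positivity) (fun v => (hgood v).2) (summ c)
  filter_upwards [h1] with A hA
  filter_upwards [hA] with n hn
  have h2 : (0 : ℝ) < 2 ^ n := by positivity
  rw [← mul_div_assoc, div_le_one h2] at hn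
  exact hn

end FAaux

open FAaux in
theorem FA (hBC : St_BC) (hTMR : St_TMR) (hASA : St_ASA) : St_FA := by
  intro Q hQ
  choose K hK using key hBC hASA Q hQ
  have hall : ∀ᵐ A ∂randomOracle, ∀ (C : List Bool → List Unit × List Gate)
      (hC : C ∈ {C : List Bool → List Unit × List Gate | PolyTime (fun x => bits (C x))}),
      ∀ c : ℕ, ∀ᶠ n in atTop,
        ({v : List Bool | v.length = n ∧ A ∈ bad Q C (K C hC c) v}.ncard : ℝ) * (n : ℝ) ^ c
          ≤ 2 ^ n := by
    rw [ae_ball_iff countable_circ]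
    intro C hC
    rw [ae_all_iff]
    intro c
    exact hK C hC c
  filter_upwards [hall] with A hA
  intro L hL c
  obtain ⟨C, hC, hCx⟩ := hL
  refine ⟨K C hC c, fun x => OUT Q A (C x) (mm (K C hC c) x.length), ?_, ?_⟩
  · refine ⟨_, hTMR C hC Q A, fun x => ?_⟩
    simp only [unpair_pairBits, List.length_replicate]
    rfl
  · filter_upwards [hA C hC c] with n hn
    have hsub : {x : List Bool | x.length = n ∧
        ¬ (OUT Q A (C x) (mm (K C hC c) x.length) = true ↔ x ∈ L)} ⊆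
        {v : List Bool | v.length = n ∧ A ∈ bad Q C (K C hC c) v} := by
      rintro x ⟨hx, hne⟩
      refine ⟨hx, ?_⟩
      by_cases hxL : x ∈ L
      · left
        refine ⟨(hCx x).1 hxL, ?_⟩
        rw [← Bool.not_eq_true]
        exact fun h => hne ⟨fun _ => hxL, fun _ => h⟩
      · right
        refine ⟨(hCx x).2 hxL, ?_⟩
        by_contra h
        exact hne ⟨fun h' => absurd h' h, fun h' => absurd h' hxL⟩
    have hfin : {v : List Bool | v.length = n ∧ A ∈ bad Q C (K C hC c) v}.Finite :=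
      (List.finite_length_eq Bool n).subset fun x hx => hx.1
    have hle := Set.ncard_le_ncard hsub hfin
    have h2 : ({v : List Bool | v.length = n ∧ A ∈ bad Q C (K C hC c) v}.ncard * n ^ c : ℕ)
        ≤ 2 ^ n := by exact_mod_cast hn
    exact (Nat.mul_le_mul_right _ hle).trans h2

end Pool.Agent.H516R2.QAR
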