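import Pool.Agent.H516R2.QAR.Props
import Pool.Agent.H620R2.Gauge.Upper

/-!
# Part (b): the worst case for quantum exponential time
-/

set_option autoImplicit false

namespace Pool.Agent.H516R2.QAR

open Pool.Agent.NPC Pool.Agent.H620R2.Gauge Filter MeasureTheory
open Pool.Agent.H628R3.RO (randomOracle)

/-- The padded input. -/
def padE (k : ℕ) (v : List Bool) : List Bool :=
  pairBits v (List.replicate (2 ^ (k * v.length)) true)

theorem length_padE (k : ℕ) (v : List Bool) :
    (padE k v).length = 2 * v.length + 1 + 2 ^ (k * v.length) := by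
  unfold padE
  have h : ∀ x : List Bool, (x.flatMap (fun b => [true, b])).length = 2 * x.length := by
    intro x
    induction x with
    | nil => rfl
    | cons b x ih => simp only [List.flatMap_cons, List.length_append, List.length_cons,
        List.length_nil, ih]; omega
  unfold pairBits
  simp only [List.length_append, List.length_cons, List.length_replicate, h]
  omega

/-- the error events for the padded inputs -/
def badB (Q : Oracle) (C : List Bool → List Unit × List Gate) (k K : ℕ) (v : List Bool) :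
    Set Oracle :=
  {A : Oracle | (2 / 3 ≤ accProb (join Q A) (C (padE k v)) ∧
      OUT Q A (C (padE k v)) (2 ^ (K * (v.length + 1) ^ 2)) = false) ∨
    (accProb (join Q A) (C (padE k v)) ≤ 1 / 3 ∧
      OUT Q A (C (padE k v)) (2 ^ (K * (v.length + 1) ^ 2)) = true)}

theorem summable_FB : Summable (fun n : ℕ => (2 : ℝ) ^ n * 2 * (1 / 2) ^ (2 * n)) := by
  have h : (fun n : ℕ => (2 : ℝ) ^ n * 2 * (1 / 2) ^ (2 * n)) = fun n => 2 * (1 / 2 : ℝ) ^ n := by
    funext n
    rw [two_mul n, pow_add]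
    have h1 : (2 : ℝ) ^ n * (1 / 2) ^ n = 1 := by
      rw [← mul_pow]; norm_num
    calc (2 : ℝ) ^ n * 2 * ((1 / 2) ^ n * (1 / 2) ^ n)
        = 2 * ((2 : ℝ) ^ n * (1 / 2) ^ n) * (1 / 2) ^ n := by ring
      _ = 2 * (1 / 2 : ℝ) ^ n := by rw [h1]; ring
  rw [h]
  exact (summable_geometric_two).mul_left 2

theorem FB_key (hBC : St_BC) (hTMR : St_TMR) (hTMP : St_TMP) (hTMF : St_TMF) (hASB : St_ASB)
    (Q : Oracle) (hQ : St_GOOD Q) (C : List Bool → List Unit × List Gate)
    (hC : PolyTime (fun x => bits (C x))) (k : ℕ) :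
    ∀ᵐ A ∂randomOracle, ∀ L : Set (List Bool),
      (∀ x, (x ∈ L → 2 / 3 ≤ accProb (join Q A) (C (padE k x))) ∧
        (x ∉ L → accProb (join Q A) (C (padE k x)) ≤ 1 / 3)) →
      ∃ (K : ℕ) (g : List Bool → Bool), InTime (fun n => 2 ^ (K * (n + 1) ^ 2)) (join Q A) g ∧
        ∀ x, g x = true ↔ x ∈ L := by
  obtain ⟨b, hb⟩ := circ_bound hC
  obtain ⟨K, hK⟩ := hASB (b + 1) k
  have hgood : ∀ v, MeasurableSet (badB Q C k K v) ∧
      randomOracle.real (badB Q C k K v) ≤ (1 / 2) ^ (2 * v.length) := by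
    intro v
    refine hQ (C (padE k v)) ((b + 1).eval (2 * v.length + 1 + 2 ^ (k * v.length)))
      (2 * v.length) (2 ^ (K * (v.length + 1) ^ 2)) ?_ (hK v.length).1
    have h1 := (hb (padE k v)).1
    rw [length_padE] at h1
    rw [Polynomial.eval_add, Polynomial.eval_one]
    omega
  have hbc := hBC (badB Q C k K) (fun _ => 2) (fun n => (1 / 2) ^ (2 * n))
    (fun v => (hgood v).1) (fun _ => by norm_num) (fun _ => by positivity)
    (fun v => (hgood v).2) summable_FB
  filter_upwards [hbc] with A hA L hL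
  obtain ⟨n₀, hn₀⟩ := eventually_atTop.mp hA
  have hno : ∀ x : List Bool, n₀ ≤ x.length → A ∉ badB Q C k K x := by
    intro x hx hbad
    have h1 := hn₀ x.length hx
    have hfin : {v : List Bool | v.length = x.length ∧ A ∈ badB Q C k K v}.Finite :=
      (List.finite_length_eq Bool x.length).subset (fun v hv => hv.1)
    have h2 : 0 < {v : List Bool | v.length = x.length ∧ A ∈ badB Q C k K v}.ncard :=
      (Set.ncard_pos hfin).mpr ⟨x, rfl, hbad⟩
    have h3 : (1 : ℝ) ≤ ({v : List Bool | v.length = x.length ∧ A ∈ badB Q C k K v}.ncard : ℝ) := by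
      exact_mod_cast h2
    linarith
  classical
  have hV := hTMF (join Q A) _ n₀ (fun x => decide (x ∈ L))
    ((hTMR C hC Q A).precomp (Pool.Agent.H622R2.poly_of_polyTime (hTMP k)))
  refine ⟨K, fun x => decide (x ∈ L), ⟨_, hV, fun x => ?_⟩, fun x => by simp⟩
  have hmin : min (2 ^ (k * x.length)) (2 ^ (K * (x.length + 1) ^ 2)) = 2 ^ (k * x.length) :=
    min_eq_left (hK x.length).2
  simp only [unpair_pairBits, List.length_replicate, hmin]
  by_cases hx : x.length < n₀
  · rw [if_pos hx]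
  · rw [if_neg hx]
    have h1 := hno x (not_lt.mp hx)
    change ¬ (_ ∨ _) at h1
    rw [not_or, not_and, not_and] at h1
    change [OUT Q A (C (padE k x)) (2 ^ (K * (x.length + 1) ^ 2))] = [decide (x ∈ L)]
    by_cases hxL : x ∈ L
    · have h2 := h1.1 ((hL x).1 hxL)
      rw [Bool.not_eq_false] at h2
      rw [h2, decide_eq_true hxL]
    · have h2 := h1.2 ((hL x).2 hxL)
      rw [Bool.not_eq_true] at h2
      rw [h2, decide_eq_false hxL]

theorem FB : St_BC → St_TMR → St_TMP → St_TMF → St_ASB → St_FB := by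
  intro hBC hTMR hTMP hTMF hASB Q hQ
  have h1 : ∀ᵐ A ∂randomOracle,
      ∀ C ∈ {C : List Bool → List Unit × List Gate | PolyTime (fun x => bits (C x))},
      ∀ k : ℕ, ∀ L : Set (List Bool),
      (∀ x, (x ∈ L → 2 / 3 ≤ accProb (join Q A) (C (padE k x))) ∧
        (x ∉ L → accProb (join Q A) (C (padE k x)) ≤ 1 / 3)) →
      ∃ (K : ℕ) (g : List Bool → Bool), InTime (fun n => 2 ^ (K * (n + 1) ^ 2)) (join Q A) g ∧
        ∀ x, g x = true ↔ x ∈ L := by
    rw [ae_ball_iff countable_circ]
    intro C hC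
    rw [ae_all_iff]
    intro k
    exact FB_key hBC hTMR hTMP hTMF hASB Q hQ C hC k
  filter_upwards [h1] with A hA L hL
  obtain ⟨k, C, hC, hCL⟩ := hL
  exact hA C hC k L hCL

end Pool.Agent.H516R2.QAR
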