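import Pool.Agent.H516R2.QAR.Props

set_option autoImplicit false

namespace Pool.Agent.H516R2.QAR

theorem FIX_aux (Ψ : (List Bool → Bool) → (List Bool → Bool))
    (h : ∀ (Q Q' : List Bool → Bool) (w : List Bool),
      (∀ u : List Bool, u.length < w.length → Q u = Q' u) → Ψ Q w = Ψ Q' w) :
    ∃ Q : List Bool → Bool, ∀ w, Q w = Ψ Q w := by
  let a : ℕ → (List Bool → Bool) := fun n => Ψ^[n] (fun _ => false)
  have ha : ∀ n, a (n + 1) = Ψ (a n) := fun n => Function.iterate_succ_apply' Ψ n _
  have h1 : ∀ n, ∀ w : List Bool, w.length < n → a n w = a (n + 1) w := by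
    intro n
    induction n with
    | zero => intro w hw; exact absurd hw (Nat.not_lt_zero _)
    | succ n ih =>
      intro w hw
      rw [ha n, ha (n + 1)]
      exact h _ _ w fun u hu => ih u (by omega)
  have h2 : ∀ k n, ∀ w : List Bool, w.length < n → a (n + k) w = a n w := by
    intro k
    induction k with
    | zero => intro n w _; rfl
    | succ k ih =>
      intro n w hw
      rw [← Nat.add_assoc, ← h1 (n + k) w (by omega)]
      exact ih n w hw
  refine ⟨fun w => a (w.length + 1) w, fun w => ?_⟩
  show a (w.length + 1) w = _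
  rw [ha w.length]
  refine h _ _ w fun u hu => ?_
  obtain ⟨k, hk⟩ := Nat.exists_eq_add_of_le (by omega : u.length + 1 ≤ w.length)
  show a w.length u = a (u.length + 1) u
  rw [hk]
  exact h2 k (u.length + 1) u (Nat.lt_succ_self _)

theorem FIX : St_FIX := fun Ψ h => FIX_aux Ψ h

end Pool.Agent.H516R2.QAR
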