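import Pool.Agent.H516R2.QAR.Props

/-!
QAR, task GD: the guide is good.
-/

set_option autoImplicit false

namespace Pool.Agent.H516R2.QAR

open Pool.Agent.NPC Pool.Agent.H620R2.Gauge Filter MeasureTheory
open Pool.Agent.H628R3.RO (randomOracle)

theorem GD (hQX : St_QX) (hPROT : St_PROT) (hPRB : St_PRB) (hLOC : St_LOC) (hMEAS : St_MEAS) :
    ∃ Q, St_GOOD Q := by
  obtain ⟨Q, hQ⟩ := hQX
  refine ⟨Q, fun c N j m hN hm => ?_⟩
  obtain ⟨st, out, hst, hG, hO⟩ := hQ c m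
  have hset : {A : Oracle | (2 / 3 ≤ accProb (join Q A) c ∧ OUT Q A c m = false) ∨
      (accProb (join Q A) c ≤ 1 / 3 ∧ OUT Q A c m = true)} = errSet Q c m st out := by
    ext A
    simp only [errSet, Set.mem_ofPred_eq]
    rw [hPROT Q A c m st out hst hG]
  rw [hset]
  refine ⟨(hMEAS (blk c) _ (hLOC Q c m st out hst)).1, ?_⟩
  have hjm : j ≤ m := by
    refine le_trans ?_ hm
    unfold Mb
    have h1 : j < 2 ^ j := Nat.lt_two_pow_self
    have h2 : j ≤ 4000 * (10 + 2 * (Nat.log 2 N + 1) + j) ^ 2 := by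
      have h3 : j ≤ (10 + 2 * (Nat.log 2 N + 1) + j) := by omega
      have h4 : (10 + 2 * (Nat.log 2 N + 1) + j) ≤ (10 + 2 * (Nat.log 2 N + 1) + j) ^ 2 :=
        Nat.le_self_pow (by norm_num) _
      omega
    exact h1.le.trans (Nat.pow_le_pow_right (by norm_num) h2)
  exact hO j hjm (hPRB Q c N j m hN hm)

end Pool.Agent.H516R2.QAR
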