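import Pool.Agent.H516R2.QAR.Props

/-!
# KR2: the multiply controlled not gate as matrices
-/

open Pool.Agent.NPC Pool.Agent.H620R2.Gauge Pool.Agent.H703R2.AA

namespace Pool.Agent.H516R2.QAR

theorem KR2 : St_KR2 := by
  intro κ _ _ m k q
  classical
  set f : (Fin m → Bool) → (Fin m → Bool) := flipIf (fun s => q.all (rd s)) k with hf
  refine ⟨fun o s j => o.elim (if j = f s then 1 else 0) (fun _ => 0), ?_, ?_, ?_⟩
  · intro o l hol i j
    apply Finset.sum_eq_zero
    intro s _
    cases o with
    | none =>
      cases l with
      | none => exact absurd rfl hol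
      | some l => simp
    | some o => simp
  · intro i j
    rw [Fintype.sum_option]
    simp only [Option.elim_none, Option.elim_some, mul_zero, Finset.sum_const_zero, add_zero]
    have h1 := sum_flipIf (fun s => q.all (rd s)) k
      (fun t : Fin m → Bool => (if i = t then (1 : ℝ) else 0) * (if j = t then (1 : ℝ) else 0))
    rw [← hf] at h1
    rw [h1]
    by_cases hij : i = j
    · subst hij
      rw [if_pos rfl, Finset.sum_eq_single i]
      · simp
      · intro t _ ht
        rw [if_neg (Ne.symm ht), zero_mul]
      · intro h
        exact absurd (Finset.mem_univ i) h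
    · rw [if_neg hij]
      apply Finset.sum_eq_zero
      intro t _
      by_cases h2 : i = t
      · subst h2
        rw [if_neg (Ne.symm hij), mul_zero]
      · rw [if_neg h2, zero_mul]
  · intro x ψ
    funext s
    change ψ (f s) = _
    rw [Finset.sum_eq_single (f s)]
    · rw [Fintype.sum_option]
      simp [sgo]
    · intro j _ hj
      rw [Fintype.sum_option]
      simp [hj]
    · intro h
      exact absurd (Finset.mem_univ _) h

end Pool.Agent.H516R2.QAR
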