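import Pool.Agent.H516R2.QAR.Props

/-!
# KR3: the oracle gate as matrices (helper403)
-/

set_option autoImplicit false

namespace Pool.Agent.H516R2.QAR.KR3aux

open Pool.Agent.NPC Pool.Agent.H620R2.Gauge Finset
open Pool.Agent.H722R2.AA Pool.Agent.H703R2.AA

section
variable {m : ℕ} (f : (Fin m → Bool) → (Fin m → Bool))

/-- plus -/
noncomputable def kp (s j : Fin m → Bool) : ℝ :=
  ((if s = j then 1 else 0) + (if f s = j then 1 else 0)) / 2

/-- minus -/
noncomputable def km (s j : Fin m → Bool) : ℝ :=
  ((if s = j then 1 else 0) - (if f s = j then 1 else 0)) / 2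

lemma kp_f (hf : Function.Involutive f) (s j : Fin m → Bool) : kp f (f s) j = kp f s j := by
  unfold kp
  rw [hf s]
  ring

lemma km_f (hf : Function.Involutive f) (s j : Fin m → Bool) : km f (f s) j = -km f s j := by
  unfold km
  rw [hf s]
  ring

lemma kpm (hf : Function.Involutive f) (c : (Fin m → Bool) → ℝ) (hc : ∀ s, c (f s) = c s)
    (i j : Fin m → Bool) : ∑ s, c s * (kp f s i * km f s j) = 0 := by
  have h1 := Equiv.sum_comp (Function.Involutive.toPerm f hf) (fun s => c s * (kp f s i * km f s j))
  have h2 : ∀ s, c ((Function.Involutive.toPerm f hf) s) * (kp f ((Function.Involutive.toPerm f hf) s) i * km f ((Function.Involutive.toPerm f hf) s) j) =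
      -(c s * (kp f s i * km f s j)) := by
    intro s
    show c (f s) * (kp f (f s) i * km f (f s) j) = _
    rw [hc, kp_f f hf, km_f f hf]
    ring
  simp only [h2, sum_neg_distrib] at h1
  linarith

lemma kpp (hf : Function.Involutive f) (i j : Fin m → Bool) :
    ∑ s, (kp f s i * kp f s j + km f s i * km f s j) = if i = j then 1 else 0 := by
  have h0 : ∑ s : Fin m → Bool, ((if s = i then (1:ℝ) else 0) * (if s = j then 1 else 0)) =
      if i = j then 1 else 0 := by
    rw [Finset.sum_eq_single i]
    · rw [if_pos rfl, one_mul]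
    · intro s _ hs
      rw [if_neg hs, zero_mul]
    · intro h; exact absurd (mem_univ i) h
  have h1 := Equiv.sum_comp (Function.Involutive.toPerm f hf)
    (fun s => (if s = i then (1:ℝ) else 0) * (if s = j then 1 else 0))
  have h2 : ∀ s, kp f s i * kp f s j + km f s i * km f s j =
      ((if s = i then (1:ℝ) else 0) * (if s = j then 1 else 0)) / 2 +
      ((if (Function.Involutive.toPerm f hf) s = i then (1:ℝ) else 0) * (if (Function.Involutive.toPerm f hf) s = j then 1 else 0)) / 2 := by
    intro s
    show _ = ((if s = i then (1:ℝ) else 0) * (if s = j then 1 else 0)) / 2 +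
      ((if f s = i then (1:ℝ) else 0) * (if f s = j then 1 else 0)) / 2
    unfold kp km
    ring
  rw [sum_congr rfl fun s _ => h2 s, sum_add_distrib, ← sum_div, ← sum_div, h1, h0]
  ring

lemma kval (s : Fin m → Bool) (ψ : (Fin m → Bool) → ℝ) (ε : ℝ) :
    ∑ j, (kp f s j + ε * km f s j) * ψ j = (ψ s + ψ (f s)) / 2 + ε * ((ψ s - ψ (f s)) / 2) := by
  have h1 : ∑ j, (if s = j then (1:ℝ) else 0) * ψ j = ψ s := by
    simp only [ite_mul, one_mul, zero_mul, sum_ite_eq, mem_univ, if_true]
  have h2 : ∑ j, (if f s = j then (1:ℝ) else 0) * ψ j = ψ (f s) := by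
    simp only [ite_mul, one_mul, zero_mul, sum_ite_eq, mem_univ, if_true]
  have h3 : ∀ j, (kp f s j + ε * km f s j) * ψ j =
      (1 + ε) / 2 * ((if s = j then (1:ℝ) else 0) * ψ j) +
      (1 - ε) / 2 * ((if f s = j then (1:ℝ) else 0) * ψ j) := by
    intro j
    unfold kp km
    ring
  rw [sum_congr rfl fun j _ => h3 j, sum_add_distrib, ← mul_sum, ← mul_sum, h1, h2]
  ring

end

section
variable {κ : Type} [Fintype κ] [DecidableEq κ] {m : ℕ}

/-- coefficient of the known answers -/
noncomputable def cN (v : (Fin m → Bool) → Bool ⊕ κ) (s : Fin m → Bool) : ℝ :=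
  (v s).elim (fun b => if b then -1 else 1) (fun _ => 0)

/-- coefficient of the unknown answers -/
noncomputable def cS (v : (Fin m → Bool) → Bool ⊕ κ) (e : κ) (s : Fin m → Bool) : ℝ :=
  (v s).elim (fun _ => 0) (fun e' => if e' = e then 1 else 0)

/-- the matrices -/
noncomputable def kA (f : (Fin m → Bool) → (Fin m → Bool)) (v : (Fin m → Bool) → Bool ⊕ κ) :
    Option κ → (Fin m → Bool) → (Fin m → Bool) → ℝ
  | none => fun s j => kp f s j + cN v s * km f s j
  | some e => fun s j => cS v e s * km f s j

omit [Fintype κ] in
lemma cNS (v : (Fin m → Bool) → Bool ⊕ κ) (e : κ) (s : Fin m → Bool) : cN v s * cS v e s = 0 := by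
  unfold cN cS
  rcases v s with b | e'
  · simp
  · simp

omit [Fintype κ] in
lemma cSS (v : (Fin m → Bool) → Bool ⊕ κ) {e e' : κ} (h : e ≠ e') (s : Fin m → Bool) :
    cS v e s * cS v e' s = 0 := by
  unfold cS
  rcases v s with b | e''
  · simp
  · simp only [Sum.elim_inr]
    by_cases h1 : e'' = e
    · rw [if_neg (show ¬ e'' = e' by rintro rfl; exact h h1.symm), mul_zero]
    · rw [if_neg h1, zero_mul]

lemma cNSone (v : (Fin m → Bool) → Bool ⊕ κ) (s : Fin m → Bool) :
    cN v s * cN v s + ∑ e, cS v e s * cS v e s = 1 := by
  unfold cN cS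
  rcases v s with b | e'
  · simp only [Sum.elim_inl, mul_zero, sum_const_zero, add_zero]
    cases b <;> simp
  · simp

lemma kr_general (f : (Fin m → Bool) → (Fin m → Bool)) (hf : Function.Involutive f)
    (v : (Fin m → Bool) → Bool ⊕ κ) (hv : ∀ s, v (f s) = v s)
    (G : (κ → ℤˣ) → ((Fin m → Bool) → ℝ) → (Fin m → Bool) → ℝ)
    (hG : ∀ x ψ s, G x ψ s =
      ψ (if (v s).elim id (fun k => decide (x k = -1)) = true then f s else s)) :
    IsKr (kA f v) G := by
  have hcN : ∀ s, cN v (f s) = cN v s := fun s => by unfold cN; rw [hv]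
  have hcS : ∀ e s, cS v e (f s) = cS v e s := fun e s => by unfold cS; rw [hv]
  refine ⟨?_, ?_, ?_⟩
  · intro k l hkl i j
    rcases k with - | e
    · rcases l with - | e'
      · exact absurd rfl hkl
      · have h1 := kpm f hf (cS v e') (hcS e') i j
        refine Eq.trans (sum_congr rfl fun s _ => ?_) h1
        show (kp f s i + cN v s * km f s i) * (cS v e' s * km f s j) = _
        linear_combination (km f s i * km f s j) * cNS v e' s
    · rcases l with - | e'
      · have h1 := kpm f hf (cS v e) (hcS e) j i
        refine Eq.trans (sum_congr rfl fun s _ => ?_) h1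
        show (cS v e s * km f s i) * (kp f s j + cN v s * km f s j) = _
        linear_combination (km f s i * km f s j) * cNS v e s
      · refine sum_eq_zero fun s _ => ?_
        show (cS v e s * km f s i) * (cS v e' s * km f s j) = 0
        have hne : e ≠ e' := fun h => hkl (by rw [h])
        linear_combination (km f s i * km f s j) * cSS v hne s
  · intro i j
    rw [Fintype.sum_option, sum_comm, ← sum_add_distrib, ← kpp f hf i j]
    have h1 := kpm f hf (cN v) hcN i j
    have h2 := kpm f hf (cN v) hcN j i
    have h3 : ∀ s, kA f v none s i * kA f v none s j +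
        ∑ e, kA f v (some e) s i * kA f v (some e) s j =
        (kp f s i * kp f s j + km f s i * km f s j) + cN v s * (kp f s i * km f s j) +
          cN v s * (kp f s j * km f s i) := by
      intro s
      have h4 : ∑ e, kA f v (some e) s i * kA f v (some e) s j =
          (∑ e, cS v e s * cS v e s) * (km f s i * km f s j) := by
        rw [sum_mul]
        refine sum_congr rfl fun e _ => ?_
        show (cS v e s * km f s i) * (cS v e s * km f s j) = _
        ring
      rw [h4]
      show (kp f s i + cN v s * km f s i) * (kp f s j + cN v s * km f s j) + _ = _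
      linear_combination (km f s i * km f s j) * cNSone v s
    rw [sum_congr rfl fun s _ => h3 s, sum_add_distrib, sum_add_distrib, h1, h2]
    ring
  · intro x ψ
    funext s
    rw [hG]
    have h1 : ∃ ε : ℝ, (∀ j, ∑ k, sgo x k * kA f v k s j = kp f s j + ε * km f s j) ∧
        ((v s).elim id (fun k => decide (x k = -1)) = true → ε = -1) ∧
        (¬ (v s).elim id (fun k => decide (x k = -1)) = true → ε = 1) := by
      refine ⟨cN v s + ∑ e, sg x e * cS v e s, fun j => ?_, ?_, ?_⟩
      · rw [Fintype.sum_option]
        show 1 * (kp f s j + cN v s * km f s j) + ∑ e, sg x e * (cS v e s * km f s j) = _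
        rw [add_mul, sum_mul]
        simp only [mul_assoc]
        ring
      · unfold cN cS
        rcases v s with b | e'
        · simp only [Sum.elim_inl, id, mul_zero, sum_const_zero, add_zero]
          intro h
          rw [if_pos h]
        · simp only [Sum.elim_inr, decide_eq_true_eq, mul_ite, mul_one, mul_zero, sum_ite_eq,
            mem_univ, if_true, zero_add]
          intro h
          unfold sg
          rw [h]
          simp
      · unfold cN cS
        rcases v s with b | e'
        · simp only [Sum.elim_inl, id, mul_zero, sum_const_zero, add_zero]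
          intro h
          rw [if_neg h]
        · simp only [Sum.elim_inr, decide_eq_true_eq, mul_ite, mul_one, mul_zero, sum_ite_eq,
            mem_univ, if_true, zero_add]
          intro h
          unfold sg
          rcases Int.units_eq_one_or (x e') with h2 | h2
          · rw [h2]; simp
          · exact absurd h2 h
    obtain ⟨ε, h2, h3, h4⟩ := h1
    have h5 : ∑ j, (∑ k, sgo x k * kA f v k s j) * ψ j =
        (ψ s + ψ (f s)) / 2 + ε * ((ψ s - ψ (f s)) / 2) := by
      rw [← kval]
      exact sum_congr rfl fun j _ => by rw [h2]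
    rw [h5]
    split_ifs with hh
    · rw [h3 hh]; ring
    · rw [h4 hh]; ring

end

end Pool.Agent.H516R2.QAR.KR3aux

namespace Pool.Agent.H516R2.QAR

open Pool.Agent.NPC Pool.Agent.H620R2.Gauge
open Pool.Agent.H722R2.AA Pool.Agent.H703R2.AA

theorem KR3 : St_KR3 := by
  intro κ _ _ val m k q
  let f : (Fin m → Bool) → (Fin m → Bool) := fun s =>
    if h : k < m then Function.update s ⟨k, h⟩ (!(s ⟨k, h⟩)) else s
  let v : (Fin m → Bool) → Bool ⊕ κ := fun s =>
    val (q.map (rd (if h : k < m then Function.update s ⟨k, h⟩ false else s)))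
  have hf : Function.Involutive f := by
    intro s
    by_cases h : k < m
    · simp only [f, h, dite_true, Function.update_self, Function.update_idem, Bool.not_not,
        Function.update_eq_self]
    · simp only [f, h, dite_false]
  have hv : ∀ s, v (f s) = v s := by
    intro s
    by_cases h : k < m
    · simp only [v, f, h, dite_true, Function.update_idem]
    · simp only [v, f, h, dite_false]
  refine ⟨KR3aux.kA f v, KR3aux.kr_general f hf v hv _ ?_⟩
  intro x ψ s
  show ψ (flipIf (fun s => orc val x (q.map (rd s))) k s) = _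
  congr 1
  by_cases h : k < m
  · have e1 : flipIf (fun s => orc val x (q.map (rd s))) k s =
        Function.update s ⟨k, h⟩ (s ⟨k, h⟩ ^^
          orc val x (q.map (rd (Function.update s ⟨k, h⟩ false)))) := by
      unfold flipIf
      rw [dif_pos h]
    have e2 : (v s).elim id (fun k => decide (x k = -1)) =
        orc val x (q.map (rd (Function.update s ⟨k, h⟩ false))) := by
      simp only [v, h, dite_true]
      rfl
    have e3 : f s = Function.update s ⟨k, h⟩ (!(s ⟨k, h⟩)) := by
      simp only [f, h, dite_true]
    rw [e1, e2, e3]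
    cases orc val x (q.map (rd (Function.update s ⟨k, h⟩ false)))
    · simp
    · simp
  · have e1 : flipIf (fun s => orc val x (q.map (rd s))) k s = s := by
      unfold flipIf
      rw [dif_neg h]
    have e3 : f s = s := by
      simp only [f, h, dite_false]
    rw [e1, e3, ite_self]

end Pool.Agent.H516R2.QAR
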