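import Pool.Agent.H516R2.QAR.Props

/-! LOC: the error event depends on few answers only (helper152) -/

set_option autoImplicit false

namespace Pool.Agent.H516R2.QAR

open Pool.Agent.NPC Pool.Agent.H620R2.Gauge

namespace LOCaux

theorem acc_eq (Q A A' : Oracle) (c : List Unit × List Gate)
    (h : ∀ w : List Bool, w.length < blk c → A w = A' w) :
    accProb (join Q A) c = accProb (join Q A') c := by
  refine accProb_local (N := 0) ?_
  intro q k hq y hy
  rcases y with _ | ⟨b, w⟩
  · rfl
  · cases b
    · rfl
    · show A w = A' w
      apply h
      have h1 := sz_le_of_mem hq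
      have h2 := length_lt_sz q
      rw [sz_inr, sz_pair, sz_pair] at h1
      have h3 : sz c = sz c.1 + sz c.2 + 1 := sz_pair c.1 c.2
      have h4 : (bits c).length = sz c := bits_length c
      rw [List.length_cons] at hy
      unfold blk
      omega

theorem trace_eq (st : List Bool → List Bool) (A A' : Oracle) (c : List Unit × List Gate)
    (hst : ∀ b, (st b).length < blk c)
    (h : ∀ w : List Bool, w.length < blk c → A w = A' w) (m : ℕ) :
    trace st A m = trace st A' m := by
  induction m with
  | zero => rfl
  | succ m ih =>
    unfold trace
    rw [ih, h _ (hst _)]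

end LOCaux

open LOCaux in
theorem LOC : St_LOC := by
  intro Q c m st out hst A A' h
  unfold errSet
  simp only [Set.mem_setOf_eq]
  rw [acc_eq Q A A' c h, trace_eq st A A' c hst h m]

end Pool.Agent.H516R2.QAR
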