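import Pool.Agent.H516R2.QAR.Props

/-! # LOCQ: locality in the first oracle of a join -/

set_option autoImplicit false

namespace Pool.Agent.H516R2.QAR

open Pool.Agent.NPC Pool.Agent.H620R2.Gauge

theorem LOCQ : St_LOCQ := by
  intro Q Q' A c h
  apply accProb_local (N := 0)
  intro q k hmem y hy
  have h3 : sz c = sz c.1 + sz c.2 + 1 := sz_pair c.1 c.2
  have h4 := sz_le_of_mem hmem
  have h5 := length_lt_sz q
  rw [sz_inr, sz_pair, sz_pair] at h4
  have h6 : (bits c).length = sz c := bits_length c
  have h7 : y.length < blk c := by
    unfold blk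
    omega
  match y, h7 with
  | [], _ => rfl
  | false :: w, h7 =>
    simp only [join]
    apply h
    simp only [List.length_cons] at h7
    omega
  | true :: w, _ => rfl

end Pool.Agent.H516R2.QAR
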