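import Pool.Agent.H516R2.QAR.Props

/-!
# MEAS: events depending on finitely many answers of a random oracle
-/

set_option autoImplicit false

namespace Pool.Agent.H516R2.QAR

open Pool.Agent.NPC Pool.Agent.H620R2.Gauge Filter MeasureTheory
open Pool.Agent.H628R3.RO (randomOracle)
open Pool.Agent.H746R2.AA (Ex)

namespace M971

theorem coin_singleton (b : Bool) : Pool.Agent.H628R3.RO.coin {b} = 2⁻¹ := by
  cases b <;> simp [Pool.Agent.H628R3.RO.coin]

/-- the oracles agreeing with `y` on the short words -/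
def cyl (ℓ : ℕ) (y : Oracle) : Set Oracle := Set.pi (posSet ℓ) (fun w => {y w})

theorem mem_cyl (ℓ : ℕ) (y A : Oracle) : A ∈ cyl ℓ y ↔ ∀ w ∈ posSet ℓ, A w = y w := by
  simp [cyl, Set.mem_pi]

theorem cyl_meas (ℓ : ℕ) (y : Oracle) : MeasurableSet (cyl ℓ y) :=
  MeasurableSet.pi (Set.to_countable _) (fun _ _ => measurableSet_singleton _)

theorem cyl_measure (ℓ : ℕ) (y : Oracle) :
    randomOracle (cyl ℓ y) = (2⁻¹ : ENNReal) ^ (posSet ℓ).card := by
  unfold randomOracle cyl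
  rw [Measure.infinitePi_pi _ (fun _ _ => measurableSet_singleton _)]
  simp [coin_singleton]

theorem cyl_real (ℓ : ℕ) (y : Oracle) :
    randomOracle.real (cyl ℓ y) = ((2 : ℝ) ^ (posSet ℓ).card)⁻¹ := by
  rw [measureReal_def, cyl_measure, ENNReal.toReal_pow, ENNReal.toReal_inv]
  simp

theorem mem_posSet (ℓ : ℕ) (w : List Bool) : w ∈ posSet ℓ ↔ w.length < ℓ := by
  simp [posSet]

theorem ext_of_mem (ℓ : ℕ) (x : ↥(posSet ℓ) → ℤˣ) (w : List Bool) (h : w ∈ posSet ℓ) :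
    ext ℓ x w = decide (x ⟨w, h⟩ = -1) := by
  simp [ext, h]

/-- the signs of an oracle -/
def sgn (ℓ : ℕ) (A : Oracle) : ↥(posSet ℓ) → ℤˣ := fun w => if A w.1 then -1 else 1

theorem ext_sgn (ℓ : ℕ) (A : Oracle) (w : List Bool) (h : w ∈ posSet ℓ) :
    ext ℓ (sgn ℓ A) w = A w := by
  rw [ext_of_mem ℓ _ w h]
  unfold sgn
  cases hA : A w
  · simp
  · simp

end M971

open M971 in
theorem MEAS : St_MEAS := by
  classical
  intro ℓ E hE
  have key : E = ⋃ x ∈ (Finset.univ.filter (fun x : ↥(posSet ℓ) → ℤˣ => ext ℓ x ∈ E)),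
      cyl ℓ (ext ℓ x) := by
    ext A
    rw [Set.mem_iUnion₂]
    constructor
    · intro hA
      refine ⟨sgn ℓ A, ?_, ?_⟩
      · rw [Finset.mem_filter]
        refine ⟨Finset.mem_univ _, ?_⟩
        rw [← hE A (ext ℓ (sgn ℓ A)) (fun w hw => (ext_sgn ℓ A w ((mem_posSet ℓ w).2 hw)).symm)]
        exact hA
      · rw [mem_cyl]
        intro w hw
        exact (ext_sgn ℓ A w hw).symm
    · rintro ⟨x, hx, hA⟩
      rw [Finset.mem_filter] at hx
      rw [mem_cyl] at hA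
      rw [hE A (ext ℓ x) (fun w hw => hA w ((mem_posSet ℓ w).2 hw))]
      exact hx.2
  have hdisj : (↑(Finset.univ.filter (fun x : ↥(posSet ℓ) → ℤˣ => ext ℓ x ∈ E)) :
      Set (↥(posSet ℓ) → ℤˣ)).PairwiseDisjoint (fun x => cyl ℓ (ext ℓ x)) := by
    intro x _ y _ hxy
    rw [Function.onFun, Set.disjoint_left]
    intro A hA hA'
    apply hxy
    rw [mem_cyl] at hA hA'
    funext ⟨w, hw⟩
    have h1 := (hA w hw).symm.trans (hA' w hw)
    rw [ext_of_mem ℓ x w hw, ext_of_mem ℓ y w hw] at h1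
    have h2 : (x ⟨w, hw⟩ = -1) ↔ (y ⟨w, hw⟩ = -1) := by
      simpa using h1
    rcases Int.units_eq_one_or (x ⟨w, hw⟩) with h3 | h3 <;>
      rcases Int.units_eq_one_or (y ⟨w, hw⟩) with h4 | h4 <;>
      rw [h3, h4] at h2 ⊢
    · exact absurd (h2.2 rfl) (by decide)
    · exact absurd (h2.1 rfl) (by decide)
  refine ⟨?_, fun F hF => ?_⟩
  · rw [key]
    exact Finset.measurableSet_biUnion _ (fun x _ => cyl_meas ℓ _)
  · rw [key, measureReal_biUnion_finset hdisj (fun x _ => cyl_meas ℓ _)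
      (fun x _ => by rw [cyl_measure]; exact ENNReal.pow_ne_top (by simp))]
    simp only [cyl_real]
    rw [Finset.sum_const, nsmul_eq_mul]
    unfold Ex
    have h1 : ∑ x, F x = ((Finset.univ.filter (fun x : ↥(posSet ℓ) → ℤˣ => ext ℓ x ∈ E)).card : ℝ) := by
      rw [Finset.card_filter, Nat.cast_sum]
      apply Finset.sum_congr rfl
      intro x _
      by_cases hx : ext ℓ x ∈ E
      · rw [(hF x).1 hx, if_pos hx, Nat.cast_one]
      · rw [(hF x).2 hx, if_neg hx, Nat.cast_zero]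
    rw [h1, Fintype.card_coe, div_eq_mul_inv]

end Pool.Agent.H516R2.QAR
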