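import Pool.Agent.H516R2.QAR.Props

/-!
# NUM: the number of rounds suffices
-/

set_option autoImplicit false

namespace Pool.Agent.H516R2.QAR

theorem NUM : St_NUM := by
  intro T N j m hT hTN hm
  have haN : N < 2 ^ (Nat.log 2 N + 1) := Nat.lt_pow_succ_log_self (by norm_num) N
  unfold Mb at hm
  generalize hL : 10 + 2 * (Nat.log 2 N + 1) + j = L at hm
  generalize ha : Nat.log 2 N + 1 = a at haN hL
  have hTa : (T : ℝ) ≤ 2 ^ a := by exact_mod_cast hTN.trans haN.le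
  have hT1 : (1 : ℝ) ≤ T := by exact_mod_cast hT
  have hX : 32 * (T : ℝ) ^ 2 / (1 / 2) ^ (j + 5) = (T : ℝ) ^ 2 * 2 ^ (j + 10) := by
    rw [one_div, inv_pow, div_inv_eq_mul]
    ring
  rw [hX]
  have h2p : ∀ n : ℕ, (1 : ℝ) ≤ 2 ^ n := fun n => one_le_pow₀ (by norm_num)
  have hX1 : (1 : ℝ) ≤ (T : ℝ) ^ 2 * 2 ^ (j + 10) := by
    have := one_le_pow₀ hT1 (n := 2)
    have := h2p (j + 10)
    nlinarith
  have hXL : (T : ℝ) ^ 2 * 2 ^ (j + 10) ≤ 2 ^ L := by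
    have h1 : (T : ℝ) ^ 2 ≤ (2 ^ a) ^ 2 := pow_le_pow_left₀ (by linarith) hTa 2
    calc (T : ℝ) ^ 2 * 2 ^ (j + 10) ≤ (2 ^ a) ^ 2 * 2 ^ (j + 10) :=
          mul_le_mul_of_nonneg_right h1 (by positivity)
      _ = 2 ^ L := by rw [← pow_mul, ← pow_add, ← hL]; congr 1; ring
  set X : ℝ := (T : ℝ) ^ 2 * 2 ^ (j + 10) with hXd
  have hlog0 : 0 ≤ Real.log X := Real.log_nonneg hX1
  have hlogL : Real.log X ≤ L * Real.log 2 := by
    have := Real.log_le_log (by linarith) hXL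
    rwa [Real.log_pow] at this
  have hl2 : Real.log 2 < 0.6932 := lt_trans Real.log_two_lt_d9 (by norm_num)
  have hl20 : 0 < Real.log 2 := Real.log_pos (by norm_num)
  have hL0 : (0 : ℝ) ≤ L := Nat.cast_nonneg L
  have h1 : 4900 * Real.log X ^ 2 ≤ (3400 * (L : ℝ) ^ 2) * Real.log 2 := by
    have h2 : Real.log X ^ 2 ≤ (L * Real.log 2) ^ 2 := pow_le_pow_left₀ hlog0 hlogL 2
    have h3 : 4900 * (L * Real.log 2) ^ 2 ≤ (3400 * (L : ℝ) ^ 2) * Real.log 2 := by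
      have h4 : 4900 * Real.log 2 ≤ 3400 := by nlinarith
      have h5 : 0 ≤ (L : ℝ) ^ 2 * Real.log 2 := by positivity
      nlinarith
    linarith
  have h6 : Real.exp (4900 * Real.log X ^ 2) ≤ 2 ^ (3400 * L ^ 2) := by
    have h7 : Real.exp ((3400 * (L : ℝ) ^ 2) * Real.log 2) = 2 ^ (3400 * L ^ 2) := by
      have h8 : (3400 * (L : ℝ) ^ 2) * Real.log 2 = ((3400 * L ^ 2 : ℕ) : ℝ) * Real.log 2 := by
        push_cast
        ring
      rw [h8, mul_comm, Real.exp_mul, Real.exp_log (by norm_num), Real.rpow_natCast]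
    rw [← h7]
    exact Real.exp_le_exp.mpr h1
  have hm' : (2 : ℝ) ^ (4000 * L ^ 2) ≤ m := by exact_mod_cast hm
  have hL10 : 10 ≤ L := by omega
  have hexpo : (2 : ℝ) ^ (3400 * L ^ 2) * 2 ^ L ≤ 2 ^ (4000 * L ^ 2) := by
    rw [← pow_add]
    exact pow_le_pow_right₀ (by norm_num) (by nlinarith)
  have hT4 : (T : ℝ) * (4 * 2 ^ (j + 5)) ≤ 2 ^ L := by
    calc (T : ℝ) * (4 * 2 ^ (j + 5)) ≤ 2 ^ a * (4 * 2 ^ (j + 5)) :=
          mul_le_mul_of_nonneg_right hTa (by positivity)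
      _ = 2 ^ (a + (j + 7)) := by ring
      _ ≤ 2 ^ L := pow_le_pow_right₀ (by norm_num) (by omega)
  have hkey : (T : ℝ) * (4 * 2 ^ (j + 5)) * Real.exp (4900 * Real.log X ^ 2) ≤ m + 1 := by
    calc (T : ℝ) * (4 * 2 ^ (j + 5)) * Real.exp (4900 * Real.log X ^ 2)
        ≤ 2 ^ L * 2 ^ (3400 * L ^ 2) := mul_le_mul hT4 h6 (Real.exp_pos _).le (by positivity)
      _ = 2 ^ (3400 * L ^ 2) * 2 ^ L := mul_comm _ _
      _ ≤ 2 ^ (4000 * L ^ 2) := hexpo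
      _ ≤ m + 1 := by linarith
  have hm0 : (0 : ℝ) < m + 1 := by positivity
  rw [Real.exp_neg, div_le_iff₀ (by positivity)]
  have hE := Real.exp_pos (4900 * Real.log X ^ 2)
  have e1 : ((1 : ℝ) / 2) ^ (j + 5) / 4 * ((m + 1) * (Real.exp (4900 * Real.log X ^ 2))⁻¹) =
      (m + 1) / ((4 * 2 ^ (j + 5)) * Real.exp (4900 * Real.log X ^ 2)) := by
    rw [one_div, inv_pow]
    field_simp
  rw [e1, le_div_iff₀ (by positivity)]
  linarith

end Pool.Agent.H516R2.QAR
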