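import Pool.Agent.H516R2.QAR.Props

/-!
# PRB: good strategies exist
-/

set_option autoImplicit false

namespace Pool.Agent.H516R2.QAR

open Pool.Agent.NPC Pool.Agent.H620R2.Gauge Filter MeasureTheory
open Pool.Agent.H628R3.RO (randomOracle)
open Pool.Agent.H722R2.AA Pool.Agent.H746R2.AA Pool.Agent.H703R2.AA Pool.Agent.H703R2.AA.Pr
  Pool.Agent.H703R2.AC

theorem PRB_mem (ℓ : ℕ) (w : List Bool) : w ∈ posSet ℓ ↔ w.length < ℓ := by
  unfold posSet
  simp

open Classical in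
/-- The fixed part of `join Q A`. -/
noncomputable def PRB_val (Q : Oracle) (ℓ : ℕ) : List Bool → Bool ⊕ ↥(posSet ℓ)
  | [] => Sum.inl false
  | false :: w => Sum.inl (Q w)
  | true :: w => if h : w ∈ posSet ℓ then Sum.inr ⟨w, h⟩ else Sum.inl false

theorem PRB_orc (Q : Oracle) (ℓ : ℕ) (x : ↥(posSet ℓ) → ℤˣ) :
    orc (PRB_val Q ℓ) x = join Q (ext ℓ x) := by
  funext z
  unfold orc
  rcases z with _ | ⟨b, w⟩
  · rfl
  · cases b
    · rfl
    · unfold PRB_val join ext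
      by_cases h : w ∈ posSet ℓ
      · simp [h]
      · simp [h]

theorem PRB_trace (ℓ : ℕ) (st : List Bool → ↥(posSet ℓ)) (x : ↥(posSet ℓ) → ℤˣ) (n : ℕ) :
    trace (fun b => (st b).1) (ext ℓ x) n = traceK st x n := by
  induction n with
  | zero => rfl
  | succ n ih =>
    unfold trace traceK
    rw [ih]
    congr 2
    unfold ext
    rw [dif_pos (st (traceK st x n)).2]

theorem PRB_gAcc (a : List Bool) : 0 ≤ gAcc a ∧ gAcc a ≤ 1 := by
  unfold gAcc
  split_ifs <;> norm_num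

theorem PRB (hBR : St_BR) (hSIM : St_SIM) (hSTR : St_STR) (hNUM : St_NUM) (hMEAS : St_MEAS)
    (hLOC : St_LOC) : St_PRB := by
  classical
  intro Q c N j m hN hm
  set ℓ := blk c with hℓ
  have hℓ1 : 0 < ℓ := by rw [hℓ]; unfold blk; omega
  obtain ⟨P, hP⟩ := hBR (↥(posSet ℓ)) (PRB_val Q ℓ) c
  set T := c.2.length + 1 with hT
  have hT1 : 1 ≤ T := by omega
  set V : ℝ := (1 / 2) ^ (j + 5) with hV
  have hV0 : 0 < V := by positivity
  have hV1 : V ≤ 1 := pow_le_one₀ (by norm_num) (by norm_num)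
  set θ : ℝ := Real.exp (-(4900 * Real.log (32 * (T : ℝ) ^ 2 / V) ^ 2)) with hθ
  have hθ0 : 0 < θ := Real.exp_pos _
  obtain ⟨t, htd, htE⟩ := hSIM (↥(posSet ℓ)) (Fin c.1.length → Bool) Bool θ (V / 4) T gAcc hθ0
    (by positivity) (fun a => (PRB_gAcc a).1) (fun a => (PRB_gAcc a).2)
    (fun P' h => Pool.Agent.H703R3.QP.light_num T hT1 V hV0 hV1 gAcc (fun a => (PRB_gAcc a).1)
      (fun a => (PRB_gAcc a).2) P' h) m P
  have hnum := hNUM T N j m hT1 hN hm
  rw [← hV, ← hθ] at hnum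
  have hE : Ex (fun x => (P.out T gAcc x - t.ev x) ^ 2) ≤ V / 2 := by
    have h1 : Po P T / ((m + 1) * θ) ≤ (T : ℝ) / ((m + 1) * θ) :=
      div_le_div_of_nonneg_right (Po_le P T) (by positivity)
    linarith
  have hk0 : [] ∈ posSet ℓ := by rw [PRB_mem]; simpa using hℓ1
  obtain ⟨st, h, hst⟩ := hSTR (↥(posSet ℓ)) ⟨[], hk0⟩ t m htd
  have hlen : ∀ b, (st b).1.length < ℓ := fun b => (PRB_mem ℓ _).mp (st b).2
  refine ⟨fun b => (st b).1, fun b => decide (1 / 2 ≤ h b), hlen, ?_⟩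
  have hloc := hLOC Q c m (fun b => (st b).1) (fun b => decide (1 / 2 ≤ h b)) hlen
  obtain ⟨_, hF⟩ := hMEAS ℓ _ hloc
  rw [hF (fun x => if ext ℓ x ∈ errSet Q c m (fun b => (st b).1) (fun b => decide (1 / 2 ≤ h b))
    then 1 else 0) (fun x => ⟨fun hx => if_pos hx, fun hx => if_neg hx⟩)]
  have hle : ∀ x, (if ext ℓ x ∈ errSet Q c m (fun b => (st b).1) (fun b => decide (1 / 2 ≤ h b))
      then (1 : ℝ) else 0) ≤ 36 * (P.out T gAcc x - t.ev x) ^ 2 := by
    intro x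
    split_ifs with hx
    · unfold errSet at hx
      simp only [Set.mem_setOf_eq] at hx
      rw [← PRB_orc, hP x, PRB_trace, hst x] at hx
      rcases hx with ⟨h1, h2⟩ | ⟨h1, h2⟩
      · rw [decide_eq_false_iff_not, not_le] at h2
        nlinarith
      · rw [decide_eq_true_iff] at h2
        nlinarith
    · positivity
  calc Ex (fun x => if ext ℓ x ∈ errSet Q c m (fun b => (st b).1) (fun b => decide (1 / 2 ≤ h b))
      then (1 : ℝ) else 0) ≤ Ex (fun x => 36 * (P.out T gAcc x - t.ev x) ^ 2) := Ex_mono hle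
    _ = 36 * Ex (fun x => (P.out T gAcc x - t.ev x) ^ 2) := Ex_mul_left _ _
    _ ≤ 36 * (V / 2) := by linarith
    _ ≤ (1 / 2) ^ j := by
        rw [hV, pow_add]
        have : (0 : ℝ) < (1 / 2) ^ j := by positivity
        nlinarith

end Pool.Agent.H516R2.QAR
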