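import Pool.Agent.H516R2.QAR.Props

/-!
# The protocol follows the strategy
-/

set_option autoImplicit false

namespace Pool.Agent.H516R2.QAR

open Pool.Agent.NPC Pool.Agent.H620R2.Gauge

namespace PROTaux

theorem code_length (l : ℕ) (w : List Bool) (h : w.length < l) : (code l w).length = l := by
  unfold code
  rw [List.length_append, List.length_cons, List.length_replicate]
  omega

theorem dropWhile_rep (n : ℕ) (v : List Bool) :
    (List.replicate n false ++ true :: v).dropWhile (fun b => !b) = true :: v := by
  induction n with
  | zero => simp
  | succ n ih =>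
    rw [List.replicate_succ, List.cons_append, List.dropWhile_cons]
    simp [ih]

theorem dec_code (l : ℕ) (w : List Bool) : dec (code l w) = w := by
  unfold dec code
  have h : (w ++ true :: List.replicate (l - 1 - w.length) false).reverse =
      List.replicate (l - 1 - w.length) false ++ true :: w.reverse := by
    simp
  rw [h, dropWhile_rep]
  simp

theorem answers_length (Q A : Oracle) (h : List Bool) (l : ℕ) (k : ℕ) :
    (answers Q A h l k).length = k := by
  induction k with
  | zero => rfl
  | succ k ih => rw [answers, List.length_append, ih]; rfl

theorem picks_append (l r : ℕ) (X Z : List Bool) (hX : X.length = r * (l + 1))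
    (hZ : Z.length ≤ l) : picks l (X ++ Z) = picks l X := by
  have h1 : (X ++ Z).length / (l + 1) = r := by
    rw [List.length_append, hX]
    rw [Nat.div_eq_iff (by omega)]
    constructor
    · omega
    · have : (r + 1) * (l + 1) = r * (l + 1) + (l + 1) := by ring
      omega
  have h2 : X.length / (l + 1) = r := by
    rw [hX, Nat.mul_div_cancel _ (by omega)]
  unfold picks
  rw [h1, h2]
  apply List.map_congr_left
  intro i hi
  rw [List.mem_range] at hi
  rw [List.getD_append]
  rw [hX]
  have : (i + 1) * (l + 1) ≤ r * (l + 1) := Nat.mul_le_mul_right _ hi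
  have h3 : (i + 1) * (l + 1) = i * (l + 1) + (l + 1) := by ring
  omega

theorem picks_full (l r : ℕ) (X Y : List Bool) (b : Bool) (hX : X.length = r * (l + 1))
    (hY : Y.length = l) : picks l ((X ++ Y) ++ [b]) = picks l X ++ [b] := by
  have h1 : ((X ++ Y) ++ [b]).length / (l + 1) = r + 1 := by
    rw [List.length_append, List.length_append, hX, hY]
    have : r * (l + 1) + l + [b].length = (r + 1) * (l + 1) := by
      simp only [List.length_cons, List.length_nil]
      ring
    rw [this, Nat.mul_div_cancel _ (by omega)]
  have h2 : X.length / (l + 1) = r := by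
    rw [hX, Nat.mul_div_cancel _ (by omega)]
  unfold picks
  rw [h1, h2, List.range_succ, List.map_append]
  refine congrArg₂ _ ?_ ?_
  · apply List.map_congr_left
    intro i hi
    rw [List.mem_range] at hi
    have : (i + 1) * (l + 1) ≤ r * (l + 1) := Nat.mul_le_mul_right _ hi
    have h3 : (i + 1) * (l + 1) = i * (l + 1) + (l + 1) := by ring
    rw [List.append_assoc, List.getD_append]
    rw [hX]
    omega
  · simp only [List.map_cons, List.map_nil]
    rw [List.getD_append_right]
    · rw [List.length_append, hX, hY]
      simp
    · rw [List.length_append, hX, hY]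

section

variable (Q A : Oracle) (c : List Unit × List Gate) (m : ℕ)
  (st : List Bool → List Bool) (out : List Bool → Bool)

theorem in_block (hst : ∀ b, (st b).length < blk c) (hg : Guided Q c m st out) (r : ℕ)
    (hr : r < m)
    (ih : picks (blk c) (answers Q A (hdr c m) (blk c) (r * (blk c + 1))) = trace st A r) :
    ∀ i ≤ blk c, answers Q A (hdr c m) (blk c) (r * (blk c + 1) + i) =
      answers Q A (hdr c m) (blk c) (r * (blk c + 1)) ++
        (code (blk c) (st (trace st A r))).take i := by
  intro i
  induction i with
  | zero => intro _; simp
  | succ i hi =>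
    intro h
    have hi' := hi (by omega)
    have hlen : (answers Q A (hdr c m) (blk c) (r * (blk c + 1) + i)).length =
        r * (blk c + 1) + i := answers_length _ _ _ _ _
    have hmod : (r * (blk c + 1) + i) % (blk c + 1) = i := by
      rw [Nat.add_comm, Nat.add_mul_mod_self_right, Nat.mod_eq_of_lt (by omega)]
    have hdiv : (r * (blk c + 1) + i) / (blk c + 1) = r := by
      rw [Nat.add_comm, Nat.add_mul_div_right _ _ (by omega), Nat.div_eq_of_lt (by omega)]
      omega
    rw [← Nat.add_assoc, answers]
    have hask : ask (hdr c m) (blk c) (answers Q A (hdr c m) (blk c) (r * (blk c + 1) + i)) =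
        false :: pairBits (hdr c m) (answers Q A (hdr c m) (blk c) (r * (blk c + 1) + i)) := by
      unfold ask
      rw [if_neg]
      rw [hlen, hmod]
      omega
    have hcl := code_length (blk c) (st (trace st A r)) (hst _)
    have hpick : picks (blk c) (answers Q A (hdr c m) (blk c) (r * (blk c + 1) + i)) =
        trace st A r := by
      rw [hi', picks_append (blk c) r _ _ (answers_length _ _ _ _ _), ih]
      rw [List.length_take]
      omega
    rw [hask]
    change _ ++ [Q (pairBits (hdr c m) _)] = _
    rw [hg, if_pos (by rw [hlen, hdiv]; exact hr), hpick, hlen, hmod, hi',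
      List.append_assoc]
    refine congrArg _ ?_
    have hlt : i < (code (blk c) (st (trace st A r))).length := by omega
    rw [List.take_succ_eq_append_getElem hlt, List.getD_eq_getElem _ _ hlt]

theorem block_end (hst : ∀ b, (st b).length < blk c) (hg : Guided Q c m st out) (r : ℕ)
    (hr : r < m)
    (ih : picks (blk c) (answers Q A (hdr c m) (blk c) (r * (blk c + 1))) = trace st A r) :
    answers Q A (hdr c m) (blk c) ((r + 1) * (blk c + 1)) =
      (answers Q A (hdr c m) (blk c) (r * (blk c + 1)) ++ code (blk c) (st (trace st A r))) ++
        [A (st (trace st A r))] := by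
  have hb := in_block Q A c m st out hst hg r hr ih (blk c) le_rfl
  have hcl := code_length (blk c) (st (trace st A r)) (hst _)
  rw [List.take_of_length_le (by omega)] at hb
  have e : (r + 1) * (blk c + 1) = r * (blk c + 1) + blk c + 1 := by ring
  have hlen : (answers Q A (hdr c m) (blk c) (r * (blk c + 1) + blk c)).length =
      r * (blk c + 1) + blk c := answers_length _ _ _ _ _
  rw [e, answers]
  have hask : ask (hdr c m) (blk c) (answers Q A (hdr c m) (blk c) (r * (blk c + 1) + blk c)) =
      true :: st (trace st A r) := by
    unfold ask
    have hmod : (r * (blk c + 1) + blk c) % (blk c + 1) = blk c := by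
      rw [Nat.add_comm, Nat.add_mul_mod_self_right, Nat.mod_eq_of_lt (by omega)]
    rw [if_pos (by rw [hlen, hmod]), hlen, hb]
    have h1 : r * (blk c + 1) + blk c - blk c =
        (answers Q A (hdr c m) (blk c) (r * (blk c + 1))).length := by
      rw [answers_length]; omega
    rw [h1, List.drop_left, dec_code]
  rw [hask, hb]
  rfl

theorem main (hst : ∀ b, (st b).length < blk c) (hg : Guided Q c m st out) :
    ∀ r ≤ m, picks (blk c) (answers Q A (hdr c m) (blk c) (r * (blk c + 1))) =
      trace st A r := by
  intro r
  induction r with
  | zero => intro _; simp [answers, picks, trace]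
  | succ r ih =>
    intro hr
    have ih' := ih (by omega)
    rw [block_end Q A c m st out hst hg r (by omega) ih', picks_full (blk c) r _ _ _
      (answers_length _ _ _ _ _) (code_length _ _ (hst _)), ih', trace]

end

end PROTaux

open PROTaux

/-- PROT: the protocol follows the strategy. -/
theorem PROT : St_PROT := by
  intro Q A c m st out hst hg
  have hm := main Q A c m st out hst hg m le_rfl
  have hlen : (answers Q A (hdr c m) (blk c) (m * (blk c + 1))).length = m * (blk c + 1) :=
    answers_length _ _ _ _ _
  have hblk : 1 ≤ blk c := by unfold blk; omega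
  unfold OUT
  rw [answers]
  have hask : ask (hdr c m) (blk c) (answers Q A (hdr c m) (blk c) (m * (blk c + 1))) =
      false :: pairBits (hdr c m) (answers Q A (hdr c m) (blk c) (m * (blk c + 1))) := by
    unfold ask
    rw [if_neg]
    rw [hlen, Nat.mul_mod_left]
    omega
  rw [hask, List.getLast?_append]
  simp only [List.getLast?_singleton, Option.some_or, Option.getD_some]
  change Q (pairBits (hdr c m) _) = _
  rw [hg, if_neg, hm]
  rw [hlen, Nat.mul_div_cancel _ (by omega)]
  omega

end Pool.Agent.H516R2.QAR
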