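import Pool.Agent.H516R2.QAR.Props

/-!
# QX: existence of the guide
-/

set_option autoImplicit false

namespace Pool.Agent.H516R2.QAR

open Pool.Agent.NPC Pool.Agent.H620R2.Gauge Filter MeasureTheory
open Pool.Agent.H628R3.RO (randomOracle)

/-- Truncation of an oracle. -/
def QX_tr (ℓ : ℕ) (Q : Oracle) : Oracle := fun w => if w.length < ℓ then Q w else false

theorem QX_length_pairBits (x w : List Bool) :
    (pairBits x w).length = 2 * x.length + 1 + w.length := by
  have h : ∀ x : List Bool, (x.flatMap (fun b => [true, b])).length = 2 * x.length := by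
    intro x
    induction x with
    | nil => rfl
    | cons b x ih =>
      rw [List.flatMap_cons, List.length_append, ih]
      simp only [List.length_cons, List.length_nil]
      omega
  unfold pairBits
  rw [List.length_append, h, List.length_cons]
  omega

theorem QX_pair_inj {x w x' w' : List Bool} (h : pairBits x w = pairBits x' w') :
    x = x' ∧ w = w' := by
  have h1 := congrArg unpair h
  rw [unpair_pairBits, unpair_pairBits] at h1
  exact Prod.mk.inj h1

theorem QX_hdr_inj {c c' : List Unit × List Gate} {m m' : ℕ} (h : hdr c m = hdr c' m') :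
    c = c' ∧ m = m' := by
  obtain ⟨h1, h2⟩ := QX_pair_inj h
  refine ⟨bits_injective h1, ?_⟩
  simpa using congrArg List.length h2

theorem QX_blk_le (c : List Unit × List Gate) (m : ℕ) (a : List Bool) :
    blk c ≤ (pairBits (hdr c m) a).length := by
  rw [QX_length_pairBits, hdr, QX_length_pairBits, blk]
  omega

theorem QX_tr_congr {ℓ n : ℕ} (hn : ℓ ≤ n) {Q Q' : Oracle}
    (h : ∀ u : List Bool, u.length < n → Q u = Q' u) : QX_tr ℓ Q = QX_tr ℓ Q' := by
  funext w
  unfold QX_tr
  split_ifs with hw
  · exact h w (by omega)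
  · rfl

theorem QX_errSet (hL : St_LOCQ) (Q : Oracle) (c : List Unit × List Gate) (m : ℕ)
    (st : List Bool → List Bool) (out : List Bool → Bool) :
    errSet (QX_tr (blk c) Q) c m st out = errSet Q c m st out := by
  have h : ∀ A, accProb (join (QX_tr (blk c) Q) A) c = accProb (join Q A) c := by
    intro A
    apply hL
    intro w hw
    unfold QX_tr
    rw [if_pos hw]
  unfold errSet
  ext A
  simp only [Set.mem_ofPred_eq, h A]

/-- QX: the guide exists. -/
theorem QX (hF : St_FIX) (hO : St_OPT) (hL : St_LOCQ) : St_QX := by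
  classical
  choose st out hlen hopt using hO
  let R : Oracle → (List Unit × List Gate) → ℕ → List Bool → Bool := fun Q c m a =>
    if a.length / (blk c + 1) < m then
      (code (blk c) (st (QX_tr (blk c) Q) c m (picks (blk c) a))).getD
        (a.length % (blk c + 1)) false
    else out (QX_tr (blk c) Q) c m (picks (blk c) a)
  let Ψ : Oracle → Oracle := fun Q w =>
    if h : ∃ p : (List Unit × List Gate) × ℕ × List Bool,
        w = pairBits (hdr p.1 p.2.1) p.2.2 then
      R Q h.choose.1 h.choose.2.1 h.choose.2.2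
    else false
  have hΨ : ∀ Q c m a, Ψ Q (pairBits (hdr c m) a) = R Q c m a := by
    intro Q c m a
    have h : ∃ p : (List Unit × List Gate) × ℕ × List Bool,
        pairBits (hdr c m) a = pairBits (hdr p.1 p.2.1) p.2.2 := ⟨(c, m, a), rfl⟩
    obtain ⟨h2, h3⟩ := QX_pair_inj h.choose_spec
    obtain ⟨h4, h5⟩ := QX_hdr_inj h2
    simp only [Ψ]
    rw [dif_pos h, ← h4, ← h5, ← h3]
  have hloc : ∀ (Q Q' : Oracle) (w : List Bool),
      (∀ u : List Bool, u.length < w.length → Q u = Q' u) → Ψ Q w = Ψ Q' w := by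
    intro Q Q' w hw
    by_cases h : ∃ p : (List Unit × List Gate) × ℕ × List Bool,
        w = pairBits (hdr p.1 p.2.1) p.2.2
    · obtain ⟨⟨c, m, a⟩, rfl⟩ := h
      rw [hΨ, hΨ]
      simp only [R]
      rw [QX_tr_congr (QX_blk_le c m a) hw]
    · simp only [Ψ]
      rw [dif_neg h, dif_neg h]
  obtain ⟨Q, hQ⟩ := hF Ψ hloc
  refine ⟨Q, fun c m => ⟨st (QX_tr (blk c) Q) c m, out (QX_tr (blk c) Q) c m,
    hlen (QX_tr (blk c) Q) c m, ?_, ?_⟩⟩
  · intro a
    rw [hQ, hΨ]
  · intro j hj hex
    rw [← QX_errSet hL]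
    apply hopt (QX_tr (blk c) Q) c m j hj
    obtain ⟨st', out', h1, h2⟩ := hex
    exact ⟨st', out', h1, by rw [QX_errSet hL]; exact h2⟩

end Pool.Agent.H516R2.QAR
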