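import Pool.Agent.H516R2.QAR.Props

/-!
# SIM: decision tree simulation of a query process
-/

set_option autoImplicit false
set_option linter.unusedSectionVars false

namespace Pool.Agent.H516R2.QAR

open Finset Pool.Agent.H722R2.AA Pool.Agent.H746R2.AA Pool.Agent.H703R2.AA Pool.Agent.H703R2.AA.Pr
  Pool.Agent.H703R2.AB Pool.Agent.H703R2.AC

namespace SIMaux

/-- Answer all questions to `l` in a tree by `s`. -/
noncomputable def prune {κ : Type} [DecidableEq κ] (l : κ) (s : ℤˣ) : DT κ → DT κ
  | .leaf r => .leaf r
  | .node k t u => if k = l then (if s = 1 then prune l s t else prune l s u)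
      else .node k (prune l s t) (prune l s u)

lemma prune_ev {κ : Type} [DecidableEq κ] (l : κ) (s : ℤˣ) (x : κ → ℤˣ) (t : DT κ) :
    (prune l s t).ev x = t.ev (Function.update x l s) := by
  induction t with
  | leaf r => rfl
  | node k t u iht ihu =>
    unfold prune
    by_cases hk : k = l
    · subst hk
      rw [if_pos rfl]
      simp only [DT.ev, Function.update_self]
      split_ifs
      · exact iht
      · exact ihu
    · rw [if_neg hk]
      simp only [DT.ev, Function.update_of_ne hk]
      rw [iht, ihu]

lemma prune_depth {κ : Type} [DecidableEq κ] (l : κ) (s : ℤˣ) (t : DT κ) :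
    (prune l s t).depth ≤ t.depth := by
  induction t with
  | leaf r => exact le_rfl
  | node k t u iht ihu =>
    unfold prune
    split_ifs
    · exact iht.trans ((le_max_left _ _).trans (Nat.le_succ _))
    · exact ihu.trans ((le_max_right _ _).trans (Nat.le_succ _))
    · exact Nat.succ_le_succ (max_le_max iht ihu)

/-- A tree that does not ask `l` is at least as good for a function which does not depend on
`l`. -/
lemma exists_prune {κ : Type} [Fintype κ] [DecidableEq κ] (l : κ) (g : (κ → ℤˣ) → ℝ)
    (hg : ∀ x b, g (Function.update x l b) = g x) (t : DT κ) :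
    ∃ t' : DT κ, t'.depth ≤ t.depth ∧ (∀ x b, t'.ev (Function.update x l b) = t'.ev x) ∧
      Ex (fun x => (g x - t'.ev x) ^ 2) ≤ Ex (fun x => (g x - t.ev x) ^ 2) := by
  have hsplit := Ex_split l (fun x => (g x - t.ev x) ^ 2)
  have he : ∀ s : ℤˣ, Ex (fr l s (fun x => (g x - t.ev x) ^ 2)) =
      Ex (fun x => (g x - (prune l s t).ev x) ^ 2) := by
    intro s
    refine Ex_congr fun x => ?_
    show (g (Function.update x l s) - t.ev (Function.update x l s)) ^ 2 = _
    rw [hg, prune_ev]
  have hdep : ∀ s : ℤˣ, ∀ x b, (prune l s t).ev (Function.update x l b) = (prune l s t).ev x := by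
    intro s x b
    rw [prune_ev, prune_ev, Function.update_idem]
  rw [he, he] at hsplit
  by_cases h : Ex (fun x => (g x - (prune l 1 t).ev x) ^ 2) ≤
      Ex (fun x => (g x - (prune l (-1) t).ev x) ^ 2)
  · refine ⟨prune l 1 t, prune_depth l 1 t, hdep 1, ?_⟩
    linarith
  · push Not at h
    refine ⟨prune l (-1) t, prune_depth l (-1) t, hdep (-1), ?_⟩
    linarith

end SIMaux

open SIMaux in
theorem SIM : St_SIM := by
  intro κ ι W _ _ _ _ _ θ B T g hθ hB0 hg0 hg1 hB
  have hCov1 : ∀ P : Pr κ ι W, Cov (P.out T g) (P.out T g) ≤ 1 := by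
    intro P
    have := Cov_self_le (P.out T g) 1 (fun x => by
      rw [abs_of_nonneg (P.out_nonneg T g hg0 x)]; exact P.out_le T g hg1 x)
    linarith
  have hleaf : ∀ (n : ℕ) (P : Pr κ ι W), Cov (P.out T g) (P.out T g) ≤ B + Po P T / ((n + 1) * θ) →
      ∃ t : DT κ, t.depth ≤ n ∧
        Ex (fun x => (P.out T g x - t.ev x) ^ 2) ≤ B + Po P T / ((n + 1) * θ) := by
    intro n P h
    refine ⟨.leaf (Ex (P.out T g)), Nat.zero_le _, ?_⟩
    have h1 := Ex_sq_sub (P.out T g) (Ex (P.out T g))
    rw [sub_self, zero_pow two_ne_zero, add_zero] at h1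
    exact h1.le.trans h
  intro n
  induction n with
  | zero =>
    intro P
    apply hleaf
    have hP := Po_nonneg P T
    by_cases hlt : ∀ t < T, ∀ k, mq P t k ≤ θ
    · have hlight := hB P hlt
      have : 0 ≤ Po P T / ((((0 : ℕ) : ℝ) + 1) * θ) := by positivity
      linarith
    · push Not at hlt
      obtain ⟨t, ht, k, hk⟩ := hlt
      have h1 : θ ≤ Po P T := by
        refine hk.le.trans ?_
        unfold Po
        calc mq P t k ≤ ∑ k, mq P t k :=
              Finset.single_le_sum (f := fun k => mq P t k) (fun k _ => mq_nonneg P t k)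
                (Finset.mem_univ k)
          _ ≤ _ := Finset.single_le_sum (f := fun t => ∑ k, mq P t k)
                (fun t _ => Finset.sum_nonneg fun k _ => mq_nonneg P t k)
                (Finset.mem_range.2 ht)
      have h2 : 1 ≤ Po P T / ((((0 : ℕ) : ℝ) + 1) * θ) := by
        rw [le_div_iff₀ (by positivity)]
        simp
        linarith
      have h3 := hCov1 P
      linarith
  | succ n ih =>
    intro P
    have hP := Po_nonneg P T
    by_cases hlt : ∀ t < T, ∀ k, mq P t k ≤ θ
    · have hlight := hB P hlt
      apply hleaf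
      have : 0 ≤ Po P T / ((((n + 1 : ℕ) : ℝ) + 1) * θ) := by positivity
      linarith
    · rcases le_or_gt (Po P T) ((((n + 1 : ℕ) : ℝ) + 1) * θ) with hle | hgt
      · push Not at hlt
        obtain ⟨t, ht, l, hk⟩ := hlt
        obtain ⟨t1, hd1, h1⟩ := ih (P.res l 1)
        obtain ⟨t2, hd2, h2⟩ := ih (P.res l (-1))
        rw [out_res] at h1 h2
        have hfr : ∀ s : ℤˣ, ∀ x b, fr l s (P.out T g) (Function.update x l b) =
            fr l s (P.out T g) x := by
          intro s x b
          unfold fr
          rw [Function.update_idem]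
        obtain ⟨t1', hd1', hi1, he1⟩ := exists_prune l (fr l 1 (P.out T g)) (hfr 1) t1
        obtain ⟨t2', hd2', hi2, he2⟩ := exists_prune l (fr l (-1) (P.out T g)) (hfr (-1)) t2
        refine ⟨.node l t1' t2', ?_, ?_⟩
        · show max t1'.depth t2'.depth + 1 ≤ n + 1
          exact Nat.succ_le_succ (max_le (hd1'.trans hd1) (hd2'.trans hd2))
        · have hsplit := Ex_split l (fun x => (P.out T g x - (DT.node l t1' t2').ev x) ^ 2)
          have e1 : Ex (fr l 1 (fun x => (P.out T g x - (DT.node l t1' t2').ev x) ^ 2)) =
              Ex (fun x => (fr l 1 (P.out T g) x - t1'.ev x) ^ 2) := by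
            refine Ex_congr fun x => ?_
            unfold fr
            simp only [DT.ev, Function.update_self, if_true]
            rw [hi1]
          have e2 : Ex (fr l (-1) (fun x => (P.out T g x - (DT.node l t1' t2').ev x) ^ 2)) =
              Ex (fun x => (fr l (-1) (P.out T g) x - t2'.ev x) ^ 2) := by
            refine Ex_congr fun x => ?_
            unfold fr
            have hne : ¬ ((-1 : ℤˣ) = 1) := by decide
            simp only [DT.ev, Function.update_self, if_neg hne]
            rw [hi2]
          rw [hsplit, e1, e2]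
          have hPot := Po_res P T l
          have hdk : θ ≤ ∑ t ∈ Finset.range T, mq P t l :=
            hk.le.trans (Finset.single_le_sum (f := fun t => mq P t l)
              (fun t _ => mq_nonneg P t l) (Finset.mem_range.2 ht))
          have hn1 : (0 : ℝ) < ((n : ℝ) + 1) * θ := by positivity
          have hn2 : (0 : ℝ) < (((n + 1 : ℕ) : ℝ) + 1) * θ := by positivity
          have hnum : (Po P T - ∑ t ∈ Finset.range T, mq P t l) / (((n : ℝ) + 1) * θ)
              ≤ Po P T / ((((n + 1 : ℕ) : ℝ) + 1) * θ) := by
            rw [div_le_div_iff₀ hn1 hn2]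
            push_cast at hle ⊢
            have h3 : (Po P T - ∑ t ∈ Finset.range T, mq P t l) * (((n : ℝ) + 1 + 1) * θ)
                ≤ (Po P T - θ) * (((n : ℝ) + 1 + 1) * θ) := by
              refine mul_le_mul_of_nonneg_right (by linarith) (by positivity)
            nlinarith
          have havg : (Po (P.res l 1) T / (((n : ℝ) + 1) * θ)
              + Po (P.res l (-1)) T / (((n : ℝ) + 1) * θ)) / 2
              = (Po P T - ∑ t ∈ Finset.range T, mq P t l) / (((n : ℝ) + 1) * θ) := by
            rw [← add_div, hPot]; ring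
          linarith
      · apply hleaf
        have h1 : 1 ≤ Po P T / ((((n + 1 : ℕ) : ℝ) + 1) * θ) := by
          rw [le_div_iff₀ (by positivity)]
          linarith
        have h3 := hCov1 P
        linarith

end Pool.Agent.H516R2.QAR
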