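import Pool.Agent.H516R2.QAR.Props

/-! STR: decision trees as strategies. -/

set_option autoImplicit false

namespace Pool.Agent.H516R2.QAR

theorem STR : St_STR := by
  intro κ k₀ t
  induction t with
  | leaf r =>
    intro n _
    exact ⟨fun _ => k₀, fun _ => r, fun x => rfl⟩
  | node k t u iht ihu =>
    intro n hn
    have hn' : max t.depth u.depth + 1 ≤ n := hn
    obtain ⟨m, rfl⟩ : ∃ m, n = m + 1 := ⟨n - 1, by omega⟩
    have h1 : t.depth ≤ m := by
      have := le_max_left t.depth u.depth
      omega
    have h2 : u.depth ≤ m := by
      have := le_max_right t.depth u.depth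
      omega
    obtain ⟨s1, g1, e1⟩ := iht m h1
    obtain ⟨s2, g2, e2⟩ := ihu m h2
    let st : List Bool → κ := fun l =>
      match l with
      | [] => k
      | b :: a => if b = true then s2 a else s1 a
    let g : List Bool → ℝ := fun l =>
      match l with
      | [] => 0
      | b :: a => if b = true then g2 a else g1 a
    refine ⟨st, g, fun x => ?_⟩
    have key : ∀ m : ℕ, traceK st x (m + 1) = decide (x k = -1) ::
        traceK (if x k = -1 then s2 else s1) x m := by
      intro m
      induction m with
      | zero => rfl
      | succ m ih =>
        show traceK st x (m + 1) ++ [decide (x (st (traceK st x (m + 1))) = -1)] = _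
        rw [ih]
        show decide (x k = -1) :: (traceK (if x k = -1 then s2 else s1) x m ++
          [decide (x (st (decide (x k = -1) :: traceK (if x k = -1 then s2 else s1) x m)) = -1)]) =
          decide (x k = -1) :: (traceK (if x k = -1 then s2 else s1) x m ++
          [decide (x ((if x k = -1 then s2 else s1)
            (traceK (if x k = -1 then s2 else s1) x m)) = -1)])
        congr 3
        show decide (x (if decide (x k = -1) = true then _ else _) = -1) = _
        by_cases hx : x k = -1
        · simp [hx]
        · simp [hx]
    rw [key]
    show (if decide (x k = -1) = true then _ else _) = if x k = 1 then t.ev x else u.ev x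
    rcases Int.units_eq_one_or (x k) with hx | hx
    · rw [if_pos hx, ← e1 x]
      simp [hx]
    · have h3 : ¬ (x k = 1) := by rw [hx]; decide
      rw [if_neg h3, ← e2 x]
      simp [hx]

end Pool.Agent.H516R2.QAR
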