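import Pool.Agent.H516R2.QAR.Props
import Pool.Agent.H622R2.CoNP

/-!
# QAR, task TMD: one step of the algorithm is polynomial time

The lemmas of the namespace `TMDaux` are taken from `Pool/Agent/H543R3/PC/B1.lean`.
-/

set_option autoImplicit false

namespace Pool.Agent.H516R2.QAR

open Pool.Agent.NPC

namespace TMDaux

theorem b1_zipIdx (l : List Bool) (n i : ℕ) :
    ((l.zipIdx i).filter (fun p => decide (n ≤ p.2))).map (fun p => p.1) = l.drop (n - i) := by
  induction l generalizing i with
  | nil => simp
  | cons b l ih =>
    rw [List.zipIdx_cons]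
    by_cases h : n ≤ i
    · rw [List.filter_cons_of_pos (by simpa using h), List.map_cons, ih,
        Nat.sub_eq_zero_of_le h, Nat.sub_eq_zero_of_le (by omega)]
      simp
    · rw [List.filter_cons_of_neg (by simpa using h), ih,
        show n - i = (n - (i + 1)) + 1 by omega, List.drop_succ_cons]

theorem b1_drop {α : Type} [TEnc α] {l : α → List Bool} {n : α → ℕ} (hl : Poly l) (hn : Poly n) :
    Poly (fun a => (l a).drop (n a)) := by
  refine (NPC.Poly.map (F := fun _ (p : Bool × ℕ) => p.1)
    (Poly.filter (p := fun a (q : Bool × ℕ) => decide (n a ≤ q.2)) (Poly.zipIdx hl)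
      (Poly.decide_le (hn.comp (Poly.fst Poly.id)) (Poly.snd (Poly.snd Poly.id))))
    (Poly.fst (Poly.snd Poly.id))).congr fun a => ?_
  rw [b1_zipIdx, Nat.sub_zero]

/-- one step of `dropWhile` -/
def b1F (s : List Bool) : List Bool := if s.head? = some false then s.tail else s

theorem b1F_sz (s : List Bool) : sz (b1F s) ≤ sz s := by
  unfold b1F
  split_ifs
  · have := NPC.Poly.sz_drop_le s 1
    rwa [List.drop_one] at this
  · exact le_rfl

theorem b1F_iter (v : List Bool) : ∀ k, v.length ≤ k → b1F^[k] v = v.dropWhile (fun b => !b) := by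
  induction v with
  | nil =>
    intro k _
    have : b1F [] = [] := rfl
    rw [Function.iterate_fixed this]
    rfl
  | cons b v ih =>
    intro k hk
    cases b with
    | false =>
      obtain ⟨k', rfl⟩ : ∃ k', k = k' + 1 := ⟨k - 1, by simp at hk; omega⟩
      rw [Function.iterate_succ_apply]
      have : b1F (false :: v) = v := by simp [b1F]
      rw [this, ih k' (by simp at hk; omega)]
      simp
    | true =>
      have : b1F (true :: v) = true :: v := by simp [b1F]
      rw [Function.iterate_fixed this]
      simp

theorem poly_dropWhile {α : Type} [TEnc α] {l : α → List Bool} (hl : Poly l) :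
    Poly (fun a => (l a).dropWhile (fun b => !b)) := by
  obtain ⟨p, hp⟩ := hl.sz_le
  have h1 : Poly (fun a => (fun s => b1F s)^[(l a).length] (l a)) := by
    refine Poly.iterLen (F := fun _ s => b1F s) hl hl ?_ p ?_
    · unfold b1F
      exact Poly.ite (Poly.decide_eq (Poly.head? (Poly.snd Poly.id)) (NPC.Poly.const _))
        (Poly.tail (Poly.snd Poly.id)) (Poly.snd Poly.id)
    · intro a k _
      have : ∀ k (s : List Bool), sz ((fun s => b1F s)^[k] s) ≤ sz s := by
        intro k
        induction k with
        | zero => intro s; exact le_rfl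
        | succ k ih =>
          intro s
          rw [Function.iterate_succ_apply]
          exact (ih _).trans (b1F_sz s)
      exact (this k _).trans (hp a)
  exact h1.congr fun a => b1F_iter (l a) _ le_rfl

theorem poly_dec {α : Type} [TEnc α] {l : α → List Bool} (hl : Poly l) :
    Poly (fun a => dec (l a)) := by
  unfold dec
  exact Poly.reverse (Poly.tail (poly_dropWhile (Poly.reverse hl)))

theorem poly_last {α : Type} [TEnc α] {l : α → List Bool} (hl : Poly l) :
    Poly (fun a => (l a).getLast?.getD false) := by
  refine (NPC.Poly.optCases (g := fun _ => false) (h := fun _ b => b)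
    (Poly.head? (Poly.reverse hl)) (NPC.Poly.const _) (Poly.snd Poly.id)).congr fun a => ?_
  rw [List.head?_reverse]
  cases (l a).getLast? <;> rfl

theorem poly_replicate {α β : Type} [TEnc α] [TEnc β] {l : α → List β} (hl : Poly l) :
    Poly (fun a => List.replicate (l a).length true) := by
  refine (NPC.Poly.map (F := fun _ (_ : β) => true) hl (NPC.Poly.const true)).congr fun a => ?_
  exact List.map_const'

theorem poly_ask {α : Type} [TEnc α] {h a : α → List Bool} {n : α → ℕ} (hh : Poly h)
    (hn : Poly n) (ha : Poly a) : Poly (fun y => ask (h y) (n y) (a y)) := by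
  unfold ask
  refine Poly.ite (Poly.decide_eq (Poly.mod (Poly.length ha) (Poly.add hn (NPC.Poly.const 1))) hn)
    (Poly.cons (NPC.Poly.const true) (poly_dec (b1_drop ha (Poly.sub (Poly.length ha) hn))))
    (Poly.cons (NPC.Poly.const false) (H622R2.poly_pairBits hh ha))

end TMDaux

open TMDaux in
theorem TMD : St_TMD := by
  intro C hC
  apply H622R2.polyTime_of_poly_list
  have hC' : Poly (fun x => bits (C x)) := H622R2.poly_of_polyTime hC
  have h1 : Poly (fun Y => (unpair Y).1) := Poly.fst poly_unpair
  have ha : Poly (fun Y => (unpair Y).2) := Poly.snd poly_unpair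
  have hx : Poly (fun Y => (unpair (unpair Y).1).1) := Poly.fst (poly_unpair.comp h1)
  have hm : Poly (fun Y => (unpair (unpair Y).1).2) := Poly.snd (poly_unpair.comp h1)
  have hc : Poly (fun Y => bits (C (unpair (unpair Y).1).1)) := hC'.comp hx
  have hb : Poly (fun Y => blk (C (unpair (unpair Y).1).1)) :=
    Poly.add (Poly.length hc) (NPC.Poly.const 1)
  have hh : Poly (fun Y => hdr (C (unpair (unpair Y).1).1) (unpair (unpair Y).1).2.length) :=
    H622R2.poly_pairBits hc (poly_replicate hm)
  unfold stepD
  exact Poly.ite
    (Poly.decide_eq (Poly.length ha) (Poly.add (Poly.mul (Poly.length hm)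
      (Poly.add hb (NPC.Poly.const 1))) (NPC.Poly.const 1)))
    (Poly.cons (NPC.Poly.const true) (Poly.cons (poly_last ha) (NPC.Poly.const [])))
    (Poly.cons (NPC.Poly.const false) (poly_ask hh hb ha))

end Pool.Agent.H516R2.QAR
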