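import Pool.Agent.H516R2.QAR.Props
import Pool.Agent.H620R2.Gauge.A2
import Pool.Agent.H671R2.PolyAuto
import Pool.Agent.H622R2.CoNP

/-!
# Finitely many exceptions
-/

set_option autoImplicit false

namespace Pool.Agent.H516R2.QAR

open Pool.Agent.NPC Pool.Agent.H620R2.Gauge
open Pool.Agent.H622R2 (poly_of_polyTime polyTime_of_poly_list)
open Pool.Agent.H620R2.Gauge.A2 (run_succ)

theorem TMF_run_mono (M : Alg) (A : Oracle) (x z : List Bool) : ∀ (n : ℕ) (a : List Bool),
    M.run A x n a = some z → M.run A x (n + 1) a = some z := by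
  intro n
  induction n with
  | zero => intro a h; simp [Alg.run] at h
  | succ n ih =>
    intro a h
    rw [run_succ] at h ⊢
    split_ifs at h ⊢ with h1
    · exact ih _ h
    · exact h

open Classical in
/-- the short words with value `true` -/
noncomputable def TMF_list (n₀ : ℕ) (G : List Bool → Bool) : List (List Bool) :=
  (List.finite_length_lt Bool n₀).toFinset.toList.filter G

theorem TMF_mem {n₀ : ℕ} {G : List Bool → Bool} {v : List Bool} (hv : v.length < n₀) :
    v ∈ TMF_list n₀ G ↔ G v = true := by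
  unfold TMF_list
  rw [List.mem_filter, Finset.mem_toList, Set.Finite.mem_toFinset]
  exact ⟨fun h => h.2, fun h => ⟨hv, h⟩⟩

/-- the next action -/
noncomputable def TMF_D (D : List Bool → List Bool) (n₀ : ℕ) (G : List Bool → Bool)
    (Y : List Bool) : List Bool :=
  if (unpair (unpair Y).1).1.length < n₀ then
    [true, decide ((unpair (unpair Y).1).1 ∈ TMF_list n₀ G)] else D Y

theorem TMF_poly {D : List Bool → List Bool} (hD : PolyTime D) (n₀ : ℕ) (G : List Bool → Bool) :
    PolyTime (TMF_D D n₀ G) := by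
  have hY : Poly (fun Y : List Bool => (unpair (unpair Y).1).1) :=
    Poly.fst (poly_unpair.comp (Poly.fst poly_unpair))
  have h1 : Poly (fun Y : List Bool => decide ((unpair (unpair Y).1).1.length < n₀)) :=
    Poly.decide_lt (Poly.length hY) (NPC.Poly.const n₀)
  have h2 : Poly (fun Y : List Bool => decide ((unpair (unpair Y).1).1 ∈ TMF_list n₀ G)) :=
    Poly.dec_mem hY (NPC.Poly.const (TMF_list n₀ G))
  have h3 : Poly (fun Y : List Bool =>
      [true, decide ((unpair (unpair Y).1).1 ∈ TMF_list n₀ G)]) :=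
    Poly.cons (NPC.Poly.const true) (Poly.cons h2 (NPC.Poly.const []))
  exact polyTime_of_poly_list (Poly.ite h1 h3 (poly_of_polyTime hD))

/-- TMF -/
theorem TMF : St_TMF := by
  intro A V n₀ G hV
  obtain ⟨M, hM⟩ := hV
  refine ⟨⟨TMF_D M.D n₀ G, TMF_poly M.poly n₀ G, M.p + 1⟩, fun X => ?_⟩
  show Alg.run _ A X ((M.p + 1).eval X.length) [] =
    some (if (unpair X).1.length < n₀ then [G (unpair X).1] else V X)
  have he : (M.p + 1).eval X.length = M.p.eval X.length + 1 := by
    rw [Polynomial.eval_add, Polynomial.eval_one]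
  rw [he]
  by_cases hX : (unpair X).1.length < n₀
  · rw [if_pos hX, run_succ]
    have hD : TMF_D M.D n₀ G (pairBits X []) = [true, G (unpair X).1] := by
      unfold TMF_D
      rw [unpair_pairBits]
      rw [if_pos hX]
      congr 2
      rw [Bool.eq_iff_iff, decide_eq_true_iff]
      exact TMF_mem hX
    rw [show (⟨TMF_D M.D n₀ G, TMF_poly M.poly n₀ G, M.p + 1⟩ : Alg).D = TMF_D M.D n₀ G from rfl,
      hD]
    rfl
  · rw [if_neg hX]
    have hD : ∀ a, TMF_D M.D n₀ G (pairBits X a) = M.D (pairBits X a) := by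
      intro a
      unfold TMF_D
      rw [unpair_pairBits]
      exact if_neg hX
    have hrun : ∀ (n : ℕ) (a : List Bool),
        Alg.run ⟨TMF_D M.D n₀ G, TMF_poly M.poly n₀ G, M.p + 1⟩ A X n a = M.run A X n a := by
      intro n
      induction n with
      | zero => intro a; rfl
      | succ n ih =>
        intro a
        rw [run_succ, run_succ]
        rw [show (⟨TMF_D M.D n₀ G, TMF_poly M.poly n₀ G, M.p + 1⟩ : Alg).D = TMF_D M.D n₀ G
          from rfl, hD, ih]
    rw [hrun]
    exact TMF_run_mono M A X _ _ _ (hM X)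

end Pool.Agent.H516R2.QAR
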