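import Pool.Agent.H516R2.QAR.Props
import Pool.Agent.H628R3.RO.P4
import Pool.Agent.H671R2.PolyAuto
import Pool.Agent.H622R2.CoNP

/-!
# Padding
-/

set_option autoImplicit false

namespace Pool.Agent.H516R2.QAR

open Pool.Agent.NPC Pool.Agent.H628R3.RO
open Pool.Agent.H622R2 (poly_of_polyTime polyTime_of_poly_list poly_pairBits)

theorem TMP_umin {α : Type} [TEnc α] {x N : α → ℕ} (hx : UPoly x) (hN : UPoly N) :
    UPoly (fun a => min (2 ^ (x a)) (N a)) := by
  have h1 := p_pow_le hx hN
  have hf : Poly (fun a : {a : α // decide (2 ^ (x a) ≤ N a) = true} =>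
      List.replicate (2 ^ (x a.1)) ()) := by
    have hv := Poly.val (fun a : α => decide (2 ^ (x a) ≤ N a) = true)
    exact u_pow (hx.comp hv) (hN.comp hv) fun a => by simpa using a.2
  have hg : Poly (fun a : {a : α // decide (2 ^ (x a) ≤ N a) = false} =>
      List.replicate (N a.1) ()) := by
    have hv := Poly.val (fun a : α => decide (2 ^ (x a) ≤ N a) = false)
    exact hN.comp hv
  refine (Poly.dcond h1 hf hg).congr fun a => ?_
  by_cases h : 2 ^ (x a) ≤ N a
  · simp [h]
  · simp [h, min_eq_right (not_le.1 h).le]

/-- TMP -/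
theorem TMP : St_TMP := by
  intro k
  have hv : Poly (fun X : List Bool => (unpair X).1) := Poly.fst poly_unpair
  have hu : Poly (fun X : List Bool => (unpair X).2) := Poly.snd poly_unpair
  have hn : UPoly (fun X : List Bool => k * (unpair X).1.length) :=
    UPoly.mul (UPoly.const k) (UPoly.length hv)
  have hm : UPoly (fun X : List Bool => min (2 ^ (k * (unpair X).1.length)) (unpair X).2.length) :=
    TMP_umin hn (UPoly.length hu)
  have hr : Poly (fun X : List Bool =>
      List.replicate (min (2 ^ (k * (unpair X).1.length)) (unpair X).2.length) true) := by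
    refine (NPC.Poly.map (F := fun _ _ => true) hm (NPC.Poly.const true)).congr fun X => ?_
    simp
  exact polyTime_of_poly_list (poly_pairBits (poly_pairBits hv hr) hu)

end Pool.Agent.H516R2.QAR
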