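import Pool.Agent.H516R2.QAR.Props

/-! Task TMR: the protocol as an oracle algorithm. -/

set_option autoImplicit false

namespace Pool.Agent.H516R2.QAR

open Pool.Agent.NPC Pool.Agent.H620R2.Gauge H568R2 Pool.Agent.H676

namespace TMRaux

theorem ustep_len (s : List Bool × List Bool × Bool) :
    (ustep s).1.length + (ustep s).2.1.length ≤ s.1.length + s.2.1.length := by
  obtain ⟨acc, l, b⟩ := s
  unfold ustep
  cases b with
  | true => simp
  | false =>
    match l with
    | [] => simp
    | true :: [] => simp
    | true :: c :: l' => simp; omega
    | false :: l' => simp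

theorem iter_len (n : ℕ) : ∀ s : List Bool × List Bool × Bool,
    (ustep^[n] s).1.length + (ustep^[n] s).2.1.length ≤ s.1.length + s.2.1.length := by
  induction n with
  | zero => intro s; exact le_rfl
  | succ n ih =>
    intro s
    rw [Function.iterate_succ_apply]
    exact (ih _).trans (ustep_len s)

theorem unpair_len (y : List Bool) : (unpair y).1.length + (unpair y).2.length ≤ y.length := by
  have h := iter_len y.length ([], y, false)
  unfold unpair
  simpa using h

theorem bits_bound {C : List Bool → List Unit × List Gate} (hC : PolyTime (fun x => bits (C x))) :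
    ∃ b : Polynomial ℕ, ∀ x, (bits (C x)).length ≤ b.eval x.length := by
  obtain ⟨q, hq⟩ := (Pool.Agent.H622R2.poly_of_polyTime hC).sz_le
  refine ⟨q.comp (Polynomial.C 4 * Polynomial.X + Polynomial.C 1), fun x => ?_⟩
  have h1 := length_lt_sz (bits (C x))
  refine h1.le.trans ((hq _).trans ?_)
  rw [Polynomial.eval_comp]
  apply eval_mono
  have h2 := sz_listBool_le x
  simp only [Polynomial.eval_add, Polynomial.eval_mul, Polynomial.eval_C, Polynomial.eval_X]
  omega

theorem answers_length (Q A : Oracle) (h : List Bool) (ℓ k : ℕ) :
    (answers Q A h ℓ k).length = k := by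
  induction k with
  | zero => rfl
  | succ k ih => rw [answers, List.length_append, ih]; rfl

end TMRaux

open TMRaux

theorem TMR (hD : St_TMD) : St_TMR := by
  intro C hC Q A
  obtain ⟨b, hb⟩ := bits_bound hC
  let p : Polynomial ℕ := Polynomial.X * (b + Polynomial.C 2) + Polynomial.C 2
  let M : Alg := { D := stepD C, poly := hD C hC, p := p }
  refine ⟨M, fun X => ?_⟩
  set v := (unpair X).1 with hv
  set m := (unpair X).2.length with hm
  set ℓ := blk (C v) with hℓ
  set h := hdr (C v) m with hh
  set K := m * (ℓ + 1) + 1 with hK
  have hlen := unpair_len X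
  rw [← hv, ← hm] at hlen
  have hstep : ∀ a : List Bool, M.D (pairBits X a) = if a.length = K then
      [true, a.getLast?.getD false] else false :: ask h ℓ a := by
    intro a
    change stepD C (pairBits X a) = _
    unfold stepD
    rw [unpair_pairBits]
  have hrun : ∀ n k, k ≤ K → K < k + n →
      M.run (join Q A) X n (answers Q A h ℓ k) = some [OUT Q A (C v) m] := by
    intro n
    induction n with
    | zero => intro k h1 h2; omega
    | succ n ih =>
      intro k h1 h2
      rw [Alg.run, hstep, answers_length]
      by_cases hk : k = K
      · rw [if_pos hk, hk]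
        rfl
      · rw [if_neg hk]
        exact ih (k + 1) (by omega) (by omega)
  have hp : K < 0 + M.p.eval X.length := by
    change K < 0 + p.eval X.length
    have h1 : ℓ ≤ b.eval X.length + 1 := by
      rw [hℓ]
      unfold blk
      have h2 := hb v
      have h3 : b.eval v.length ≤ b.eval X.length := eval_mono b (by omega)
      omega
    have h4 : m ≤ X.length := by omega
    simp only [p, Polynomial.eval_add, Polynomial.eval_mul, Polynomial.eval_X, Polynomial.eval_C]
    have h5 : m * (ℓ + 1) ≤ X.length * (b.eval X.length + 2) := Nat.mul_le_mul h4 (by omega)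
    omega
  exact hrun _ 0 (Nat.zero_le _) hp

end Pool.Agent.H516R2.QAR
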