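import Pool.Agent.H516R2.QAR.KR1
import Pool.Agent.H516R2.QAR.KR2
import Pool.Agent.H516R2.QAR.KR3
import Pool.Agent.H516R2.QAR.BR
import Pool.Agent.H516R2.QAR.SIM
import Pool.Agent.H516R2.QAR.STR
import Pool.Agent.H516R2.QAR.NUM
import Pool.Agent.H516R2.QAR.MEAS
import Pool.Agent.H516R2.QAR.LOC
import Pool.Agent.H516R2.QAR.LOCQ
import Pool.Agent.H516R2.QAR.PRB
import Pool.Agent.H516R2.QAR.BC
import Pool.Agent.H516R2.QAR.FIX
import Pool.Agent.H516R2.QAR.OPT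
import Pool.Agent.H516R2.QAR.QX
import Pool.Agent.H516R2.QAR.PROT
import Pool.Agent.H516R2.QAR.TMD
import Pool.Agent.H516R2.QAR.TMR
import Pool.Agent.H516R2.QAR.TMP
import Pool.Agent.H516R2.QAR.TMF
import Pool.Agent.H516R2.QAR.ASA
import Pool.Agent.H516R2.QAR.ASB
import Pool.Agent.H516R2.QAR.GD
import Pool.Agent.H516R2.QAR.FA
import Pool.Agent.H516R2.QAR.FB

/-!
# Assembly
-/

namespace Pool.Agent.H516R2.QAR

open MeasureTheory Pool.Agent.H620R2.Gauge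
open Pool.Agent.H628R3.RO (randomOracle)

theorem all_BR : St_BR := BR KR1 KR2 KR3

theorem all_PRB : St_PRB := PRB all_BR SIM STR NUM MEAS LOC

theorem all_QX : St_QX := QX FIX OPT LOCQ

theorem all_GD : ∃ Q, St_GOOD Q := GD all_QX PROT all_PRB LOC MEAS

theorem all_TMR : St_TMR := TMR TMD

theorem main : Main := by
  obtain ⟨Q, hQ⟩ := all_GD
  refine ⟨Q, ?_⟩
  filter_upwards [FA BC all_TMR ASA Q hQ, FB BC all_TMR TMP TMF ASB Q hQ] with A h1 h2
  exact ⟨h1, h2⟩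

end Pool.Agent.H516R2.QAR
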