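import Pool.Agent.H620R2.GaugeQ.Defs
import Pool.Agent.H628R3.RO.Defs

/-!
# Joins of oracles, deterministic and quantum time classes
-/

namespace Pool.Agent.H516R2.QAR

open Pool.Agent.NPC Pool.Agent.H620R2.Gauge

/-- The join of two oracles: `false :: w` is answered like `w` by `Q`, and `true :: w` is answered
like `w` by `A`. -/
def join (Q A : Oracle) : Oracle
  | [] => false
  | false :: w => Q w
  | true :: w => A w

/-- The function `g` is computable relative to the oracle `A` in time polynomial in
`|x| + t(|x|)`: it is computable in polynomial time from `x` and `t(|x|)` in unary. -/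
def InTime (t : ℕ → ℕ) (A : Oracle) (g : List Bool → Bool) : Prop :=
  ∃ V : List Bool → List Bool, IsFP A V ∧
    ∀ x, V (pairBits x (List.replicate (t x.length) true)) = [g x]

/-- The language `L` is decided relative to `A` with error at most `1/3` by quantum circuits of
size `2 ^ O(n)`: the circuit for the input `x` is computed in polynomial time from `x` and
`2 ^ (k |x|)` in unary. -/
def IsBQE (A : Oracle) (L : Set (List Bool)) : Prop :=
  ∃ (k : ℕ) (C : List Bool → List Unit × List Gate), PolyTime (fun x => bits (C x)) ∧
    ∀ x,
      (x ∈ L → 2 / 3 ≤ accProb A (C (pairBits x (List.replicate (2 ^ (k * x.length)) true)))) ∧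
      (x ∉ L → accProb A (C (pairBits x (List.replicate (2 ^ (k * x.length)) true))) ≤ 1 / 3)

end Pool.Agent.H516R2.QAR
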