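import Pool.Agent.H516R2.QAR.Props

/-!
# KR1: the Hadamard gate as matrices
-/

set_option autoImplicit false

namespace Pool.Agent.H516R2.QAR

open Pool.Agent.NPC Pool.Agent.H620R2.Gauge
open Pool.Agent.H703R2.AA

/-- the vectors of the standard basis -/
noncomputable def KR1_d {m : ℕ} (j : Fin m → Bool) : (Fin m → Bool) → ℝ :=
  fun s => if s = j then 1 else 0

theorem KR1_lin {m : ℕ} (A : Oracle) (i : ℕ) (ψ : (Fin m → Bool) → ℝ) (s : Fin m → Bool) :
    gateAct A (Sum.inl i) ψ s = ∑ j, gateAct A (Sum.inl i) (KR1_d j) s * ψ j := by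
  by_cases h : i < m
  · simp only [gateAct, h, dite_true, KR1_d]
    generalize (if s ⟨i, h⟩ = true then (-1 : ℝ) else 1) = c
    generalize Function.update s ⟨i, h⟩ false = u0
    generalize Function.update s ⟨i, h⟩ true = u1
    have e : ∀ j, ((if u0 = j then (1 : ℝ) else 0) + c * (if u1 = j then 1 else 0)) /
        Real.sqrt 2 * ψ j =
        (if u0 = j then ψ j / Real.sqrt 2 else 0) + (if u1 = j then c * ψ j / Real.sqrt 2 else 0) := by
      intro j
      split_ifs <;> ring
    rw [Finset.sum_congr rfl fun j _ => e j, Finset.sum_add_distrib, Finset.sum_ite_eq,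
      Finset.sum_ite_eq, if_pos (Finset.mem_univ _), if_pos (Finset.mem_univ _)]
    ring
  · simp only [gateAct, h, dite_false, KR1_d]
    have e : ∀ j, (if s = j then (1 : ℝ) else 0) * ψ j = if s = j then ψ j else 0 := by
      intro j
      split_ifs <;> ring
    rw [Finset.sum_congr rfl fun j _ => e j, Finset.sum_ite_eq, if_pos (Finset.mem_univ _)]

theorem KR1_dsum {m : ℕ} (j : Fin m → Bool) (f : (Fin m → Bool) → ℝ) :
    ∑ s, KR1_d j s * f s = f j := by
  unfold KR1_d
  have e : ∀ s, (if s = j then (1 : ℝ) else 0) * f s = if s = j then f s else 0 := by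
    intro s
    split_ifs <;> ring
  rw [Finset.sum_congr rfl fun s _ => e s, Finset.sum_ite_eq', if_pos (Finset.mem_univ _)]

theorem KR1_orth {m : ℕ} (A : Oracle) (t : ℕ) (i j : Fin m → Bool) :
    ∑ s, gateAct A (Sum.inl t) (KR1_d i) s * gateAct A (Sum.inl t) (KR1_d j) s =
      if i = j then 1 else 0 := by
  have hn : ∀ ψ : (Fin m → Bool) → ℝ, ∑ s, gateAct A (Sum.inl t) ψ s ^ 2 = ∑ s, ψ s ^ 2 :=
    fun ψ => gateAct_norm A (Sum.inl t) ψ
  have hadd : ∀ s, gateAct A (Sum.inl t) (fun s => KR1_d i s + KR1_d j s) s =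
      gateAct A (Sum.inl t) (KR1_d i) s + gateAct A (Sum.inl t) (KR1_d j) s := by
    intro s
    rw [KR1_lin A t (fun s => KR1_d i s + KR1_d j s) s]
    simp only [mul_add, Finset.sum_add_distrib]
    rw [KR1_lin A t (KR1_d i) s, KR1_lin A t (KR1_d j) s]
  have h1 := hn (KR1_d i)
  have h2 := hn (KR1_d j)
  have h3 := hn (fun s => KR1_d i s + KR1_d j s)
  have h4 : ∀ s, gateAct A (Sum.inl t) (fun s => KR1_d i s + KR1_d j s) s ^ 2 =
      gateAct A (Sum.inl t) (KR1_d i) s ^ 2 + gateAct A (Sum.inl t) (KR1_d j) s ^ 2 +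
        2 * (gateAct A (Sum.inl t) (KR1_d i) s * gateAct A (Sum.inl t) (KR1_d j) s) := by
    intro s
    rw [hadd s]
    ring
  have h5 : ∀ s, (KR1_d i s + KR1_d j s) ^ 2 =
      KR1_d i s ^ 2 + KR1_d j s ^ 2 + 2 * (KR1_d i s * KR1_d j s) := by
    intro s
    ring
  rw [Finset.sum_congr rfl fun s _ => h4 s, Finset.sum_add_distrib, Finset.sum_add_distrib,
    ← Finset.mul_sum] at h3
  rw [Finset.sum_congr rfl fun s _ => h5 s, Finset.sum_add_distrib, Finset.sum_add_distrib,
    ← Finset.mul_sum, KR1_dsum i (KR1_d j)] at h3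
  have h6 : KR1_d j i = if i = j then (1 : ℝ) else 0 := rfl
  rw [h6] at h3
  linarith

theorem KR1 : St_KR1 := by
  intro κ _ _ m i
  refine ⟨fun k s j => match k with
    | none => gateAct (fun _ => false) (Sum.inl i) (KR1_d j) s
    | some _ => 0, ?_, ?_, ?_⟩
  · intro k l hkl i' j'
    refine Finset.sum_eq_zero fun s _ => ?_
    cases k with
    | some k => exact zero_mul _
    | none =>
      cases l with
      | some l => exact mul_zero _
      | none => exact absurd rfl hkl
  · intro i' j'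
    rw [Fintype.sum_option]
    simp only [mul_zero, Finset.sum_const_zero, add_zero]
    exact KR1_orth _ i i' j'
  · intro x ψ
    funext s
    refine (KR1_lin (fun _ => false) i ψ s).trans ?_
    refine Finset.sum_congr rfl fun j _ => ?_
    rw [Fintype.sum_option]
    simp only [mul_zero, Finset.sum_const_zero, add_zero, sgo, one_mul]

end Pool.Agent.H516R2.QAR
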