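import Pool.Agent.H516R2.QAR.Props

set_option autoImplicit false

namespace Pool.Agent.H516R2.QAR

open Pool.Agent.NPC Pool.Agent.H620R2.Gauge Filter MeasureTheory
open Pool.Agent.H628R3.RO (randomOracle)

theorem OPT : St_OPT := by
  classical
  intro Q c m
  have : IsProbabilityMeasure randomOracle := by
    unfold Pool.Agent.H628R3.RO.randomOracle
    infer_instance
  let E : ℕ → Prop := fun j => ∃ (st' : List Bool → List Bool) (out' : List Bool → Bool),
      (∀ b, (st' b).length < blk c) ∧ randomOracle.real (errSet Q c m st' out') ≤ (1 / 2) ^ j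
  have h0 : E 0 := by
    refine ⟨fun _ => [], fun _ => false, fun b => by simp [blk], ?_⟩
    rw [pow_zero]
    exact measureReal_le_one
  have hE : E (Nat.findGreatest E m) := Nat.findGreatest_spec (Nat.zero_le m) h0
  obtain ⟨st, out, h1, h2⟩ := hE
  refine ⟨st, out, h1, ?_⟩
  intro j hj hex
  have hle : j ≤ Nat.findGreatest E m := Nat.le_findGreatest hj hex
  exact h2.trans (pow_le_pow_of_le_one (by norm_num) (by norm_num) hle)

end Pool.Agent.H516R2.QAR
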