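import Pool.Agent.H516R2.QAR.Defs
import Pool.Agent.H620R2.GaugeQ.Q1
import Pool.Agent.H620R2.GaugeQ.Q8
import Pool.Agent.H703R3.QP.FinalQ
import Pool.Agent.NPC.Dec

/-!
# Blueprint: bounded-error quantum time relative to a random oracle
-/

set_option autoImplicit false

namespace Pool.Agent.H516R2.QAR

open Pool.Agent.NPC Pool.Agent.H620R2.Gauge Filter MeasureTheory
open Pool.Agent.H628R3.RO (randomOracle)
open Pool.Agent.H722R2.AA Pool.Agent.H746R2.AA Pool.Agent.H703R2.AA Pool.Agent.H703R2.AA.Pr
  Pool.Agent.H703R2.AC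

/-! ## Definitions -/

/-- The answers of `A` to the first `n` questions of the strategy `st`. -/
def trace (st : List Bool → List Bool) (A : Oracle) : ℕ → List Bool
  | 0 => []
  | n + 1 => trace st A n ++ [A (st (trace st A n))]

/-- The same for a strategy asking for signs `x k`; the answer is `true` for the sign `-1`. -/
def traceK {κ : Type} (st : List Bool → κ) (x : κ → ℤˣ) : ℕ → List Bool
  | 0 => []
  | n + 1 => traceK st x n ++ [decide (x (st (traceK st x n)) = -1)]

/-- Decision trees with real values. -/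
inductive DT (κ : Type) : Type
  | leaf (r : ℝ) : DT κ
  | node (k : κ) (t u : DT κ) : DT κ

/-- The value of a decision tree. -/
noncomputable def DT.ev {κ : Type} (x : κ → ℤˣ) : DT κ → ℝ
  | .leaf r => r
  | .node k t u => if x k = 1 then t.ev x else u.ev x

/-- The depth of a decision tree. -/
def DT.depth {κ : Type} : DT κ → ℕ
  | .leaf _ => 0
  | .node _ t u => max t.depth u.depth + 1

/-- The length of the blocks of the protocol for the circuit `c`; all questions of `c` are
shorter. -/
def blk (c : List Unit × List Gate) : ℕ := (bits c).length + 1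

/-- The header of the questions to the guide. -/
def hdr (c : List Unit × List Gate) (m : ℕ) : List Bool :=
  pairBits (bits c) (List.replicate m true)

/-- The word `w` written with `ℓ` bits (if `w` is shorter than `ℓ`). -/
def code (ℓ : ℕ) (w : List Bool) : List Bool := w ++ true :: List.replicate (ℓ - 1 - w.length) false

/-- The inverse of `code`. -/
def dec (a : List Bool) : List Bool := ((a.reverse.dropWhile (fun b => !b)).tail).reverse

/-- The next question of the protocol: in every block of `ℓ + 1` questions the first `ℓ` go to the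
guide `Q` and spell out the question that is finally put to `A`. -/
def ask (h : List Bool) (ℓ : ℕ) (a : List Bool) : List Bool :=
  if a.length % (ℓ + 1) = ℓ then true :: dec (a.drop (a.length - ℓ)) else false :: pairBits h a

/-- The list of the first `k` answers in the protocol. -/
def answers (Q A : Oracle) (h : List Bool) (ℓ : ℕ) : ℕ → List Bool
  | 0 => []
  | k + 1 => answers Q A h ℓ k ++ [join Q A (ask h ℓ (answers Q A h ℓ k))]

/-- The result of the protocol: the last answer after `m` full blocks and one more question. -/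
def OUT (Q A : Oracle) (c : List Unit × List Gate) (m : ℕ) : Bool :=
  (answers Q A (hdr c m) (blk c) (m * (blk c + 1) + 1)).getLast?.getD false

/-- The answers of `A` in a list of answers. -/
def picks (ℓ : ℕ) (a : List Bool) : List Bool :=
  (List.range (a.length / (ℓ + 1))).map (fun i => a.getD (i * (ℓ + 1) + ℓ) false)

/-- The oracle `Q` guides the protocol for `c` and `m` along the strategy `st`, `out`. -/
def Guided (Q : Oracle) (c : List Unit × List Gate) (m : ℕ) (st : List Bool → List Bool)
    (out : List Bool → Bool) : Prop :=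
  ∀ a, Q (pairBits (hdr c m) a) =
    if a.length / (blk c + 1) < m then
      (code (blk c) (st (picks (blk c) a))).getD (a.length % (blk c + 1)) false
    else out (picks (blk c) a)

/-- The set of the oracles for which the strategy errs. -/
def errSet (Q : Oracle) (c : List Unit × List Gate) (m : ℕ) (st : List Bool → List Bool)
    (out : List Bool → Bool) : Set Oracle :=
  {A | (2 / 3 ≤ accProb (join Q A) c ∧ out (trace st A m) = false) ∨
    (accProb (join Q A) c ≤ 1 / 3 ∧ out (trace st A m) = true)}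

/-- The strategy is as good as possible, up to powers of two. -/
def Opt (Q : Oracle) (c : List Unit × List Gate) (m : ℕ) (st : List Bool → List Bool)
    (out : List Bool → Bool) : Prop :=
  ∀ j ≤ m, (∃ (st' : List Bool → List Bool) (out' : List Bool → Bool),
      (∀ b, (st' b).length < blk c) ∧ randomOracle.real (errSet Q c m st' out') ≤ (1 / 2) ^ j) →
    randomOracle.real (errSet Q c m st out) ≤ (1 / 2) ^ j

/-- The number of rounds that suffices for circuits of size `N` and error `2 ^ (-j)`. -/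
def Mb (N j : ℕ) : ℕ := 2 ^ (4000 * (10 + 2 * (Nat.log 2 N + 1) + j) ^ 2)

/-- The set of all words shorter than `ℓ`. -/
noncomputable def posSet (ℓ : ℕ) : Finset (List Bool) := (List.finite_length_lt Bool ℓ).toFinset

open Classical in
/-- The oracle given by signs for the words shorter than `ℓ` (`false` elsewhere). -/
noncomputable def ext (ℓ : ℕ) (x : ↥(posSet ℓ) → ℤˣ) : Oracle := fun w =>
  if h : w ∈ posSet ℓ then decide (x ⟨w, h⟩ = -1) else false

/-- An oracle some answers of which are fixed, the others given by signs. -/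
def orc {κ : Type} (val : List Bool → Bool ⊕ κ) (x : κ → ℤˣ) : Oracle := fun z =>
  (val z).elim id (fun k => decide (x k = -1))

/-- The payoff: the last outcome. -/
noncomputable def gAcc : List Bool → ℝ := fun h => if h.head? = some true then 1 else 0

/-- The matrices `a k` describe the map `G x`. -/
def IsKr {κ : Type} [Fintype κ] [DecidableEq κ] {m : ℕ}
    (a : Option κ → (Fin m → Bool) → (Fin m → Bool) → ℝ)
    (G : (κ → ℤˣ) → ((Fin m → Bool) → ℝ) → (Fin m → Bool) → ℝ) : Prop :=
  (∀ k l, k ≠ l → ∀ i j, ∑ s, a k s i * a l s j = 0) ∧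
  (∀ i j, ∑ k, ∑ s, a k s i * a k s j = if i = j then 1 else 0) ∧
  ∀ x ψ, G x ψ = fun s => ∑ j, (∑ k, sgo x k * a k s j) * ψ j

/-- One step of the Turing machine algorithm for the protocol. -/
def stepD (C : List Bool → List Unit × List Gate) (Y : List Bool) : List Bool :=
  if (unpair Y).2.length =
      (unpair (unpair Y).1).2.length * (blk (C (unpair (unpair Y).1).1) + 1) + 1 then
    [true, (unpair Y).2.getLast?.getD false]
  else false :: ask (hdr (C (unpair (unpair Y).1).1) (unpair (unpair Y).1).2.length)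
    (blk (C (unpair (unpair Y).1).1)) (unpair Y).2

/-! ## Quantum circuits as query processes -/

/-- KR1: the Hadamard gate. -/
def St_KR1 : Prop := ∀ (κ : Type) [Fintype κ] [DecidableEq κ] (m i : ℕ),
  ∃ a : Option κ → (Fin m → Bool) → (Fin m → Bool) → ℝ,
    IsKr a (fun _ ψ => gateAct (fun _ => false) (Sum.inl i) ψ)

/-- KR2: the multiply controlled not gate. -/
def St_KR2 : Prop := ∀ (κ : Type) [Fintype κ] [DecidableEq κ] (m k : ℕ) (q : List ℕ),
  ∃ a : Option κ → (Fin m → Bool) → (Fin m → Bool) → ℝ,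
    IsKr a (fun _ ψ => gateAct (fun _ => false) (Sum.inr (false, q, k)) ψ)

/-- KR3: the oracle gate. -/
def St_KR3 : Prop := ∀ (κ : Type) [Fintype κ] [DecidableEq κ] (val : List Bool → Bool ⊕ κ)
  (m k : ℕ) (q : List ℕ), ∃ a : Option κ → (Fin m → Bool) → (Fin m → Bool) → ℝ,
    IsKr a (fun x ψ => gateAct (orc val x) (Sum.inr (true, q, k)) ψ)

/-- BR: the acceptance probability of a circuit is the mean payoff of a query process. -/
def St_BR : Prop := ∀ (κ : Type) [Fintype κ] [DecidableEq κ] (val : List Bool → Bool ⊕ κ)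
  (c : List Unit × List Gate), ∃ P : Pr κ (Fin c.1.length → Bool) Bool,
    ∀ x : κ → ℤˣ, accProb (orc val x) c = P.out (c.2.length + 1) gAcc x

/-! ## Decision trees -/

/-- SIM: simulation of a query process by a decision tree. -/
def St_SIM : Prop := ∀ (κ ι W : Type) [Fintype κ] [DecidableEq κ] [Fintype ι] [DecidableEq ι]
  [Fintype W] (θ B : ℝ) (T : ℕ) (g : List W → ℝ), 0 < θ → 0 ≤ B → (∀ a, 0 ≤ g a) →
  (∀ a, g a ≤ 1) →
  (∀ P : Pr κ ι W, (∀ t < T, ∀ k, mq P t k ≤ θ) → Cov (P.out T g) (P.out T g) ≤ B) →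
  ∀ (n : ℕ) (P : Pr κ ι W), ∃ t : DT κ, t.depth ≤ n ∧
    Ex (fun x => (P.out T g x - t.ev x) ^ 2) ≤ B + Po P T / ((n + 1) * θ)

/-- STR: a decision tree as a strategy with a fixed number of rounds. -/
def St_STR : Prop := ∀ (κ : Type) (_k₀ : κ) (t : DT κ) (n : ℕ), t.depth ≤ n →
  ∃ (st : List Bool → κ) (h : List Bool → ℝ), ∀ x : κ → ℤˣ, h (traceK st x n) = t.ev x

/-- NUM: the number of rounds suffices. -/
def St_NUM : Prop := ∀ T N j m : ℕ, 1 ≤ T → T ≤ N → Mb N j ≤ m →
  (T : ℝ) / ((m + 1) * Real.exp (-(4900 * Real.log (32 * (T : ℝ) ^ 2 / (1 / 2) ^ (j + 5)) ^ 2)))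
    ≤ (1 / 2) ^ (j + 5) / 4

/-! ## Random oracles -/

/-- MEAS: events depending on finitely many answers. -/
def St_MEAS : Prop := ∀ (ℓ : ℕ) (E : Set Oracle),
  (∀ A A' : Oracle, (∀ w : List Bool, w.length < ℓ → A w = A' w) → (A ∈ E ↔ A' ∈ E)) →
  MeasurableSet E ∧
  ∀ F : (↥(posSet ℓ) → ℤˣ) → ℝ, (∀ x, (ext ℓ x ∈ E → F x = 1) ∧ (ext ℓ x ∉ E → F x = 0)) →
    randomOracle.real E = Ex F

/-- LOC: the error event depends on few answers only. -/
def St_LOC : Prop := ∀ (Q : Oracle) (c : List Unit × List Gate) (m : ℕ)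
  (st : List Bool → List Bool) (out : List Bool → Bool), (∀ b, (st b).length < blk c) →
  ∀ A A' : Oracle, (∀ w : List Bool, w.length < blk c → A w = A' w) →
    (A ∈ errSet Q c m st out ↔ A' ∈ errSet Q c m st out)

/-- LOCQ: the same for `Q`. -/
def St_LOCQ : Prop := ∀ (Q Q' A : Oracle) (c : List Unit × List Gate),
  (∀ w : List Bool, w.length < blk c → Q w = Q' w) →
    accProb (join Q A) c = accProb (join Q' A) c

/-- PRB: good strategies exist. -/
def St_PRB : Prop := ∀ (Q : Oracle) (c : List Unit × List Gate) (N j m : ℕ),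
  c.2.length + 1 ≤ N → Mb N j ≤ m →
  ∃ (st : List Bool → List Bool) (out : List Bool → Bool), (∀ b, (st b).length < blk c) ∧
    randomOracle.real (errSet Q c m st out) ≤ (1 / 2) ^ j

/-- BC: the first Borel-Cantelli lemma for the number of bad inputs. -/
def St_BC : Prop := ∀ (bad : List Bool → Set Oracle) (w b : ℕ → ℝ),
  (∀ v, MeasurableSet (bad v)) → (∀ n, 0 ≤ w n) → (∀ n, 0 ≤ b n) →
  (∀ v, randomOracle.real (bad v) ≤ b v.length) →
  Summable (fun n => 2 ^ n * w n * b n) →
  ∀ᵐ A ∂randomOracle, ∀ᶠ n in atTop,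
    ({v : List Bool | v.length = n ∧ A ∈ bad v}.ncard : ℝ) * w n ≤ 1

/-! ## The guide -/

/-- FIX: oracles defined by recursion on the length. -/
def St_FIX : Prop := ∀ Ψ : Oracle → Oracle,
  (∀ (Q Q' : Oracle) (w : List Bool), (∀ u : List Bool, u.length < w.length → Q u = Q' u) →
    Ψ Q w = Ψ Q' w) →
  ∃ Q : Oracle, ∀ w, Q w = Ψ Q w

/-- OPT: best strategies exist. -/
def St_OPT : Prop := ∀ (Q : Oracle) (c : List Unit × List Gate) (m : ℕ),
  ∃ (st : List Bool → List Bool) (out : List Bool → Bool), (∀ b, (st b).length < blk c) ∧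
    Opt Q c m st out

/-- QX: the guide. -/
def St_QX : Prop := ∃ Q : Oracle, ∀ (c : List Unit × List Gate) (m : ℕ),
  ∃ (st : List Bool → List Bool) (out : List Bool → Bool), (∀ b, (st b).length < blk c) ∧
    Guided Q c m st out ∧ Opt Q c m st out

/-- PROT: the protocol follows the strategy. -/
def St_PROT : Prop := ∀ (Q A : Oracle) (c : List Unit × List Gate) (m : ℕ)
  (st : List Bool → List Bool) (out : List Bool → Bool), (∀ b, (st b).length < blk c) →
  Guided Q c m st out → OUT Q A c m = out (trace st A m)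

/-! ## Polynomial time -/

/-- TMD: one step of the algorithm. -/
def St_TMD : Prop := ∀ C : List Bool → List Unit × List Gate, PolyTime (fun x => bits (C x)) →
  PolyTime (stepD C)

/-- TMR: the protocol can be run in polynomial time. -/
def St_TMR : Prop := ∀ C : List Bool → List Unit × List Gate, PolyTime (fun x => bits (C x)) →
  ∀ Q A : Oracle,
    IsFP (join Q A) (fun X => [OUT Q A (C (unpair X).1) (unpair X).2.length])

/-- TMP: padding. -/
def St_TMP : Prop := ∀ k : ℕ, PolyTime (fun X => pairBits (pairBits (unpair X).1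
  (List.replicate (min (2 ^ (k * (unpair X).1.length)) (unpair X).2.length) true)) (unpair X).2)

/-- TMF: finitely many exceptions. -/
def St_TMF : Prop := ∀ (A : Oracle) (V : List Bool → List Bool) (n₀ : ℕ) (G : List Bool → Bool),
  IsFP A V → IsFP A (fun X => if (unpair X).1.length < n₀ then [G (unpair X).1] else V X)

/-! ## Asymptotics -/

/-- ASA: polynomial size, polynomially small error. -/
def St_ASA : Prop := ∀ (p : Polynomial ℕ) (c : ℕ), ∃ K : ℕ, ∀ n : ℕ,
  Mb (p.eval n) ((c + 2) * (Nat.log 2 n + 1)) ≤ 2 ^ (K * (Nat.log 2 n + 1) ^ 2)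

/-- ASB: exponential size, exponentially small error. -/
def St_ASB : Prop := ∀ (p : Polynomial ℕ) (k : ℕ), ∃ K : ℕ, ∀ n : ℕ,
  Mb (p.eval (2 * n + 1 + 2 ^ (k * n))) (2 * n) ≤ 2 ^ (K * (n + 1) ^ 2) ∧
  2 ^ (k * n) ≤ 2 ^ (K * (n + 1) ^ 2)

/-! ## The theorems -/

/-- Part (a). -/
def PartA (Q A : Oracle) : Prop := ∀ L : Set (List Bool), IsBQP (join Q A) L → ∀ c : ℕ,
  ∃ (K : ℕ) (g : List Bool → Bool),
    InTime (fun n => 2 ^ (K * (Nat.log 2 n + 1) ^ 2)) (join Q A) g ∧
    ∀ᶠ n in atTop,
      {x : List Bool | x.length = n ∧ ¬ (g x = true ↔ x ∈ L)}.ncard * n ^ c ≤ 2 ^ n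

/-- Part (b). -/
def PartB (Q A : Oracle) : Prop := ∀ L : Set (List Bool), IsBQE (join Q A) L →
  ∃ (K : ℕ) (g : List Bool → Bool), InTime (fun n => 2 ^ (K * (n + 1) ^ 2)) (join Q A) g ∧
    ∀ x, g x = true ↔ x ∈ L

/-- The property of the guide used in the final assembly. -/
def St_GOOD (Q : Oracle) : Prop := ∀ (c : List Unit × List Gate) (N j m : ℕ),
  c.2.length + 1 ≤ N → Mb N j ≤ m →
  MeasurableSet {A : Oracle | (2 / 3 ≤ accProb (join Q A) c ∧ OUT Q A c m = false) ∨
    (accProb (join Q A) c ≤ 1 / 3 ∧ OUT Q A c m = true)} ∧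
  randomOracle.real {A : Oracle | (2 / 3 ≤ accProb (join Q A) c ∧ OUT Q A c m = false) ∨
    (accProb (join Q A) c ≤ 1 / 3 ∧ OUT Q A c m = true)} ≤ (1 / 2) ^ j

/-- FA: part (a) for almost every oracle. -/
def St_FA : Prop := ∀ Q : Oracle, St_GOOD Q → ∀ᵐ A ∂randomOracle, PartA Q A

/-- FB: part (b) for almost every oracle. -/
def St_FB : Prop := ∀ Q : Oracle, St_GOOD Q → ∀ᵐ A ∂randomOracle, PartB Q A

/-- The theorem. -/
def Main : Prop := ∃ Q : Oracle, ∀ᵐ A ∂randomOracle, PartA Q A ∧ PartB Q A

end Pool.Agent.H516R2.QAR
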